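import Mathlib

/-!
# Lexicographically least words avoiding fractional powers: abstract criterion
-/

namespace Pool.Agent.H70.AB

/-- symbol at n: the letter, or nothing at the columns after T -/
def sy (v : ℕ → ℕ) (k T n : ℕ) : Option ℕ :=
  if n < T ∨ (n + 1 - T) % k ≠ 0 then some (v n) else none

/-- definite mismatch of two symbols, the unknown letters are at least d -/
def Mis (d : ℕ) : Option ℕ → Option ℕ → Prop
  | some x, some y => x ≠ y
  | some x, none => x < d
  | none, some y => y < d
  | none, none => False

/-- the structure of the candidate word -/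
structure Str (v : ℕ → ℕ) (k K d T D : ℕ) : Prop where
  hk : 2 ≤ k
  hK : 0 < K
  hkK : k ∣ K
  hT : 1 ≤ T
  hD : D ≤ T
  hDk : T ≤ D + k
  hcol : ∀ i, v (T + k - 1 + k * i) = v i + d
  hper : ∀ n, D ≤ n → (n + 1 < T ∨ (T ≤ n ∧ (n + 1 - T) % k ≠ 0)) → v (n + K) = v n

/-- the finite conditions for avoidance -/
structure Av (v : ℕ → ℕ) (b g k K d T D M L : ℕ) : Prop where
  hb : 0 < b
  hg : 0 < g
  hdesc : ∀ m, K ∣ b * m → k ∣ m
  hL : L ≤ g * M
  A1 : ∀ m, 0 < m → m < M → ∀ i, i < T + K → (K ∣ b * m → i < D) →
    ∃ j, j < g * m ∧ Mis d (sy v k T (i + j)) (sy v k T (i + j + b * m))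
  A2 : ∀ i, i < T + K → ∀ δ, 0 < δ → b * M ≤ δ →
    (∀ j, j < L → ¬ Mis d (sy v k T (i + j)) (sy v k T (i + j + δ))) → K ∣ δ
  A4 : ∀ m, M ≤ m → 0 < m → K ∣ b * m → ∀ i, i < D → ∃ j, j < g * m ∧ v (i + j) ≠ v (i + j + b * m)
  V : ∀ m, 0 < m → v (T - 1) = v (b * m - 1) + d → ∃ j, j + 1 < g * m ∧ v j ≠ v (j + b * m)

/-- letter x at position n is blocked -/
def Bl (v : ℕ → ℕ) (b g n x : ℕ) : Prop :=
  ∃ m i, 0 < m ∧ i + (b + g) * m = n + 1 ∧
    (∀ j, j + 1 < g * m → v (i + j) = v (i + j + b * m)) ∧ v (i + g * m - 1) = x

/-- the finite conditions for leastness -/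
structure Le (v : ℕ → ℕ) (b g k K d T N2 : ℕ) : Prop where
  hb : 0 < b
  hg : 0 < g
  hKbk : K ∣ b * k
  hN : T ≤ N2
  B1 : ∀ n, n < N2 + K → ∀ x, x < ((sy v k T n).getD d) → ∃ m i, 0 < m ∧ i + (b + g) * m = n + 1 ∧
    (N2 ≤ n → T ≤ i) ∧
    (∀ j, j + 1 < g * m → ∃ y, sy v k T (i + j) = some y ∧ sy v k T (i + j + b * m) = some y) ∧
    sy v k T (i + g * m - 1) = some x

variable {v : ℕ → ℕ} {b g k K d T D M L N2 : ℕ}

theorem Str.col_iff (h : Str v k K d T D) {n : ℕ} (hn : T ≤ n) (hc : (n + 1 - T) % k = 0) :
    ∃ i, n = T + k - 1 + k * i := by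
  have hk := h.hk
  obtain ⟨c, hc⟩ := Nat.dvd_of_mod_eq_zero hc
  rcases c with _ | c
  · simp at hc; omega
  · refine ⟨c, ?_⟩
    rw [Nat.mul_succ] at hc
    omega

theorem Str.col_mod (h : Str v k K d T D) (i : ℕ) : (T + k - 1 + k * i + 1 - T) % k = 0 := by
  have hk := h.hk
  have : T + k - 1 + k * i + 1 - T = k * (i + 1) := by rw [Nat.mul_succ]; omega
  rw [this]; exact Nat.mul_mod_right _ _

theorem Str.sy_known (_ : Str v k K d T D) {n x : ℕ} (hx : sy v k T n = some x) : v n = x := by
  unfold sy at hx
  split at hx
  · simpa using hx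
  · simp at hx

theorem Str.sy_none (h : Str v k K d T D) {n : ℕ} (hx : sy v k T n = none) : d ≤ v n := by
  unfold sy at hx
  split at hx
  · simp at hx
  · rename_i hh
    push Not at hh
    obtain ⟨i, hi⟩ := h.col_iff hh.1 hh.2
    rw [hi, h.hcol]; omega

theorem Str.mis_ne (h : Str v k K d T D) {n n' : ℕ} (hm : Mis d (sy v k T n) (sy v k T n')) :
    v n ≠ v n' := by
  rcases h1 : sy v k T n with _ | x <;> rcases h2 : sy v k T n' with _ | y
  · rw [h1, h2] at hm; exact hm.elim
  · rw [h1, h2] at hm
    have := h.sy_none h1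
    have h3 := h.sy_known h2
    simp only [Mis] at hm
    omega
  · rw [h1, h2] at hm
    have := h.sy_none h2
    have h3 := h.sy_known h1
    simp only [Mis] at hm
    omega
  · rw [h1, h2] at hm
    have h4 := h.sy_known h1
    have h3 := h.sy_known h2
    simp only [Mis] at hm
    omega

theorem Str.mod_add (h : Str v k K d T D) {n : ℕ} (hn : T ≤ n) :
    (n + K + 1 - T) % k = (n + 1 - T) % k := by
  obtain ⟨c, hc⟩ := h.hkK
  have : n + K + 1 - T = (n + 1 - T) + k * c := by omega
  rw [this, Nat.add_mul_mod_self_left]

theorem Str.sy_per (h : Str v k K d T D) {n : ℕ} (hn : T ≤ n) : sy v k T (n + K) = sy v k T n := by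
  unfold sy
  rw [h.mod_add hn]
  have h1 : ¬ n < T := by omega
  have h2 : ¬ n + K < T := by omega
  simp only [h1, h2, false_or]
  split
  · rename_i hh
    rw [h.hper n (le_trans h.hD hn) (Or.inr ⟨hn, hh⟩)]
  · rfl

theorem Str.sy_per_mul (h : Str v k K d T D) {n : ℕ} (hn : T ≤ n) (q : ℕ) :
    sy v k T (n + K * q) = sy v k T n := by
  induction q with
  | zero => simp
  | succ q ih =>
    have : n + K * (q + 1) = (n + K * q) + K := by ring
    rw [this, h.sy_per (by omega), ih]

/-- reduction of a position modulo K -/
theorem Str.reduce (h : Str v k K d T D) (i : ℕ) :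
    ∃ i0, i0 < T + K ∧ (i < T → i0 = i) ∧ (T ≤ i → T ≤ i0) ∧ (∃ q, i = i0 + K * q) ∧
      ∀ j, sy v k T (i + j) = sy v k T (i0 + j) := by
  by_cases hi : i < T + K
  · exact ⟨i, hi, fun _ => rfl, fun h => h, ⟨0, by simp⟩, fun _ => rfl⟩
  · have hK := h.hK
    have e1 : i = T + (i - T) % K + K * ((i - T) / K) := by
      have := Nat.mod_add_div (i - T) K
      omega
    refine ⟨T + (i - T) % K, ?_, ?_, ?_, ⟨(i - T) / K, e1⟩, ?_⟩
    · have := Nat.mod_lt (i - T) hK; omega
    · intro hh; omega
    · intro _; omega
    · intro j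
      have : i + j = (T + (i - T) % K + j) + K * ((i - T) / K) := by omega
      rw [this, h.sy_per_mul (by omega)]

theorem Str.avoid (h : Str v k K d T D) (hA : Av v b g k K d T D M L) :
    ∀ m, 0 < m → ∀ i, ∃ j, j < g * m ∧ v (i + j) ≠ v (i + j + b * m) := by
  intro m
  induction m using Nat.strong_induction_on with
  | _ m ih =>
  intro hm i
  have hk := h.hk
  obtain ⟨i0, hi0, hi0e, -, -, hs⟩ := h.reduce i
  have hb := hA.hb
  have hg := hA.hg
  have hsh : ∀ j, Mis d (sy v k T (i0 + j)) (sy v k T (i0 + j + b * m)) → v (i + j) ≠ v (i + j + b * m) := by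
    intro j hmis
    apply h.mis_ne
    rw [hs j, show i + j + b * m = i + (j + b * m) by ring, hs (j + b * m)]
    rw [show i0 + (j + b * m) = i0 + j + b * m by ring]
    exact hmis
  by_cases hmM : m < M ∧ (K ∣ b * m → i0 < D)
  · obtain ⟨j, hj, hmis⟩ := hA.A1 m hm hmM.1 i0 hi0 hmM.2
    exact ⟨j, hj, hsh j hmis⟩
  · by_contra hcon
    push Not at hcon
    have hdvd : K ∣ b * m := by
      by_cases hmM2 : m < M
      · by_contra hcon2
        exact hmM ⟨hmM2, fun hh => absurd hh hcon2⟩
      · apply hA.A2 i0 hi0 (b * m) (Nat.mul_pos hb hm) (Nat.mul_le_mul_left _ (by omega))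
        intro j hj hmis
        have hjm : j < g * m := lt_of_lt_of_le hj (le_trans hA.hL (Nat.mul_le_mul_left _ (by omega)))
        exact hsh j hmis (hcon j hjm)
    have hMi : M ≤ m ∨ D ≤ i0 := by
      by_contra hcon2
      push Not at hcon2
      exact hmM ⟨hcon2.1, fun _ => hcon2.2⟩
    obtain ⟨m', hm'⟩ := hA.hdesc m hdvd
    have hm'0 : 0 < m' := by
      rcases Nat.eq_zero_or_pos m' with h0 | h0
      · subst h0; simp at hm'; omega
      · exact h0
    have hm'm : m' < m := by
      rw [hm']; nlinarith
    by_cases hiD : i < D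
    · have hD := h.hD
      have : i0 = i := hi0e (by omega)
      obtain ⟨j, hj, hne⟩ := hA.A4 m (by omega) hm hdvd i hiD
      exact hne (hcon j hj)
    · by_cases hiT : i < T
      · -- virtual column
        have hDk := h.hDk
        have hT := h.hT
        have hgm : g * m = k * (g * m') := by rw [hm']; ring
        have hgm1 : 1 ≤ g * m' := Nat.mul_pos hg hm'0
        have hbm1 : 1 ≤ b * m' := Nat.mul_pos hb hm'0
        have e0 : v (T - 1) = v (b * m' - 1) + d := by
          have hj : T - 1 - i < g * m := by
            rw [hgm]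
            calc T - 1 - i < k := by omega
              _ = k * 1 := by ring
              _ ≤ k * (g * m') := Nat.mul_le_mul_left _ hgm1
          have := hcon _ hj
          rw [show i + (T - 1 - i) = T - 1 by omega] at this
          rw [this, ← h.hcol (b * m' - 1)]
          congr 1
          have : b * m = k * (b * m') := by rw [hm']; ring
          rw [this]
          have h2 : k * (b * m' - 1) = k * (b * m') - k := by
            rw [Nat.mul_sub, mul_one]
          have h3 : k * 1 ≤ k * (b * m') := Nat.mul_le_mul_left _ hbm1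
          omega
        obtain ⟨j, hj, hne⟩ := hA.V m' hm'0 e0
        have hj2 : T - 1 - i + k * (j + 1) < g * m := by
          rw [hgm]
          have : k * (j + 1) ≤ k * (g * m' - 1) := Nat.mul_le_mul_left _ (by omega)
          have h2 : k * (g * m' - 1) = k * (g * m') - k := by
            rw [Nat.mul_sub, mul_one]
          have h3 : k * 1 ≤ k * (g * m') := Nat.mul_le_mul_left _ hgm1
          omega
        have := hcon _ hj2
        have e1 : i + (T - 1 - i + k * (j + 1)) = T + k - 1 + k * j := by
          rw [Nat.mul_succ]; omega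
        have e2 : i + (T - 1 - i + k * (j + 1)) + b * m = T + k - 1 + k * (j + b * m') := by
          rw [e1]
          have : b * m = k * (b * m') := by rw [hm']; ring
          rw [this]; ring
        rw [e2, e1, h.hcol, h.hcol] at this
        exact hne (by omega)
      · -- desubstitution
        obtain ⟨j, hj, hne⟩ := ih m' hm'm hm'0 ((i - T) / k)
        apply hne
        have hdm := Nat.mod_add_div (i - T) k
        have hml := Nat.mod_lt (i - T) (show 0 < k by omega)
        set c := (i - T) / k with hc
        have hgm : g * m = k * (g * m') := by rw [hm']; ring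
        have hj2 : T + k - 1 + k * (c + j) - i < g * m := by
          rw [hgm]
          have h1 : k * (j + 1) ≤ k * (g * m') := Nat.mul_le_mul_left _ hj
          rw [Nat.mul_add] at *
          omega
        have := hcon _ hj2
        have e1 : i + (T + k - 1 + k * (c + j) - i) = T + k - 1 + k * (c + j) := by
          rw [Nat.mul_add]
          omega
        have e2 : T + k - 1 + k * (c + j) + b * m = T + k - 1 + k * (c + j + b * m') := by
          have : b * m = k * (b * m') := by rw [hm']; ring
          rw [this]; ring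
        rw [e1, e2, h.hcol, h.hcol] at this
        omega

theorem Str.per_dvd (h : Str v k K d T D) {n : ℕ} (hn : T ≤ n) (hc : (n + 1 - T) % k ≠ 0)
    {δ : ℕ} (hδ : K ∣ δ) : v (n + δ) = v n := by
  obtain ⟨q, rfl⟩ := hδ
  have h1 : sy v k T n = some (v n) := by
    unfold sy; rw [if_pos (Or.inr hc)]
  have := h.sy_per_mul hn q
  rw [h1] at this
  exact h.sy_known this

theorem Str.blocked (h : Str v k K d T D) (hL : Le v b g k K d T N2) :
    ∀ n, ∀ x, x < v n → Bl v b g n x := by
  intro n
  induction n using Nat.strong_induction_on with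
  | _ n ih =>
  intro x hx
  have hk := h.hk
  have hK := h.hK
  have hb := hL.hb
  have hg := hL.hg
  have hN := hL.hN
  by_cases hxd : x < (sy v k T n).getD d
  · -- finite check
    have key : ∃ n1 q, n1 < N2 + K ∧ n = n1 + K * q ∧ sy v k T n = sy v k T n1 ∧ (n < N2 + K → q = 0) ∧
        (¬ n < N2 + K → N2 ≤ n1) := by
      by_cases hn : n < N2 + K
      · exact ⟨n, 0, hn, by simp, rfl, fun _ => rfl, fun h => absurd hn h⟩
      · have e1 : n = N2 + (n - N2) % K + K * ((n - N2) / K) := by
          have := Nat.mod_add_div (n - N2) K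
          omega
        refine ⟨N2 + (n - N2) % K, (n - N2) / K, ?_, e1, ?_, fun h => absurd h hn, fun _ => by omega⟩
        · have := Nat.mod_lt (n - N2) hK; omega
        · conv_lhs => rw [e1]
          exact h.sy_per_mul (by omega) _
    obtain ⟨n1, q, hn1, hnq, hsy, hq0, hN1⟩ := key
    rw [hsy] at hxd
    obtain ⟨m, i, hm, him, hTi, hj, hl⟩ := hL.B1 n1 hn1 x hxd
    have hshift : ∀ r, i ≤ r → sy v k T (r + K * q) = sy v k T r := by
      intro r hr
      by_cases hn : n < N2 + K
      · rw [hq0 hn]; simp
      · have := hTi (hN1 hn)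
        exact h.sy_per_mul (by omega) _
    refine ⟨m, i + K * q, hm, by rw [hnq]; omega, ?_, ?_⟩
    · intro j hjm
      obtain ⟨y, hy1, hy2⟩ := hj j hjm
      have e1 : sy v k T (i + K * q + j) = some y := by
        rw [show i + K * q + j = (i + j) + K * q by ring, hshift _ (by omega), hy1]
      have e2 : sy v k T (i + K * q + j + b * m) = some y := by
        rw [show i + K * q + j + b * m = (i + j + b * m) + K * q by ring, hshift _ (by omega), hy2]
      rw [h.sy_known e1, h.sy_known e2]
    · have hgm : 1 ≤ g * m := Nat.mul_pos hg hm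
      have e1 : sy v k T (i + K * q + g * m - 1) = some x := by
        rw [show i + K * q + g * m - 1 = (i + g * m - 1) + K * q by omega, hshift _ (by omega), hl]
      exact h.sy_known e1
  · -- column, image
    have hsn : sy v k T n = none := by
      rcases h1 : sy v k T n with _ | y
      · rfl
      · rw [h1] at hxd
        have := h.sy_known h1
        simp at hxd; omega
    rw [hsn] at hxd
    simp only [Option.getD_none, not_lt] at hxd
    unfold sy at hsn
    split at hsn
    · simp at hsn
    rename_i hh
    push Not at hh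
    obtain ⟨c, hc⟩ := h.col_iff hh.1 hh.2
    have hvn : v n = v c + d := by rw [hc, h.hcol]
    have hcn : c < n := by
      rw [hc]
      have : c ≤ k * c := Nat.le_mul_of_pos_left _ (by omega)
      have hT := h.hT
      omega
    obtain ⟨m', i', hm', him', hj', hl'⟩ := ih c hcn (x - d) (by omega)
    have hT := h.hT
    have hgm' : 1 ≤ g * m' := Nat.mul_pos hg hm'
    refine ⟨k * m', T + k * i', Nat.mul_pos (by omega) hm', ?_, ?_, ?_⟩
    · rw [hc]
      have : (b + g) * (k * m') = k * ((b + g) * m') := by ring
      rw [this]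
      have h2 : k * (i' + (b + g) * m') = k * (c + 1) := by rw [him']
      rw [Nat.mul_add, Nat.mul_succ] at h2
      omega
    · intro j hj
      have hgk : g * (k * m') = k * (g * m') := by ring
      rw [hgk] at hj
      have hbk : b * (k * m') = k * (b * m') := by ring
      by_cases hcj : (T + k * i' + j + 1 - T) % k = 0
      · obtain ⟨u, hu⟩ := h.col_iff (by omega : T ≤ T + k * i' + j) hcj
        have hui : i' ≤ u := by
          by_contra hcon
          push Not at hcon
          have : k * (u + 1) ≤ k * i' := Nat.mul_le_mul_left _ hcon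
          rw [Nat.mul_succ] at this
          omega
        obtain ⟨w, rfl⟩ := Nat.exists_eq_add_of_le hui
        have hw : w + 1 < g * m' := by
          by_contra hcon
          push Not at hcon
          have : k * (g * m') ≤ k * (w + 1) := Nat.mul_le_mul_left _ hcon
          rw [Nat.mul_add] at hu
          rw [Nat.mul_succ] at this
          omega
        rw [hbk, hu, h.hcol, show T + k - 1 + k * (i' + w) + k * (b * m') =
          T + k - 1 + k * (i' + w + b * m') by ring, h.hcol, hj' w hw]
      · have : K ∣ b * (k * m') := by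
          rw [← mul_assoc]; exact Dvd.dvd.mul_right hL.hKbk _
        rw [h.per_dvd (by omega) hcj this]
    · have hgk : g * (k * m') = k * (g * m') := by ring
      have e1 : T + k * i' + g * (k * m') - 1 = T + k - 1 + k * (i' + g * m' - 1) := by
        rw [hgk]
        have h2 : k * (i' + g * m' - 1) = k * i' + k * (g * m') - k := by
          rw [Nat.mul_sub, mul_one, Nat.mul_add]
        have h3 : k * 1 ≤ k * (g * m') := Nat.mul_le_mul_left _ hgm'
        omega
      rw [e1, h.hcol, hl']
      omega

/-- the word avoids powers of exponent (b+g)/b -/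
def Avoids (b g : ℕ) (w : ℕ → ℕ) : Prop :=
  ∀ i m : ℕ, 0 < m → ∃ j, j < g * m ∧ w (i + j) ≠ w (i + j + b * m)

/-- a blocked avoiding word is lexicographically least -/
theorem least_of_blocked (hg : 0 < g) (hbl : ∀ n, ∀ x, x < v n → Bl v b g n x) {u : ℕ → ℕ}
    (hu : Avoids b g u) : v = u ∨ ∃ n, (∀ j, j < n → v j = u j) ∧ v n < u n := by
  classical
  by_cases he : v = u
  · exact Or.inl he
  · right
    have hex : ∃ n, v n ≠ u n := by
      by_contra hcon
      push Not at hcon
      exact he (funext hcon)
    refine ⟨Nat.find hex, ?_, ?_⟩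
    · intro j hj
      have := Nat.find_min hex hj
      push Not at this
      exact this
    · have hlt : ∀ j, j < Nat.find hex → v j = u j := by
        intro j hj
        have := Nat.find_min hex hj
        push Not at this
        exact this
      have hne := Nat.find_spec hex
      set n := Nat.find hex with hn
      by_contra hcon
      have hx : u n < v n := by omega
      obtain ⟨m, i, hm, him, hj, hl⟩ := hbl n _ hx
      obtain ⟨j, hjm, hjne⟩ := hu i m hm
      apply hjne
      have hgm : 1 ≤ g * m := Nat.mul_pos hg hm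
      rw [Nat.add_mul] at him
      by_cases hj1 : j + 1 < g * m
      · rw [← hlt (i + j) (by omega), ← hlt (i + j + b * m) (by omega)]
        exact hj j hj1
      · have : j = g * m - 1 := by omega
        subst this
        have e2 : i + (g * m - 1) + b * m = n := by omega
        rw [e2, ← hl, ← hlt (i + (g * m - 1))]
        · congr 1
          omega
        · rcases Nat.eq_zero_or_pos b with h0 | h0
          · subst h0
            simp at him e2
            exfalso
            have h4 : u n < u n := by
              have h5 : i + g * m - 1 = n := by omega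
              rw [h5] at hl
              omega
            exact lt_irrefl _ h4
          · have := Nat.mul_pos h0 hm
            omega

end Pool.Agent.H70.AB
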