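import Pool.Agent.H70.AB.Core

/-!
# The k-kernel is finitely generated
-/

namespace Pool.Agent.H70.AB

variable {v : ℕ → ℕ} {k K d T D : ℕ}

/-- extended kernel sequences -/
def Fk (v : ℕ → ℕ) (k B e c : ℕ) : ℕ → ℤ := fun n => (v (k ^ e * n + c - B) : ℤ)

/-- indicator of a residue class -/
def ind (K j : ℕ) : ℕ → ℤ := fun n => if n % K = j then 1 else 0

/-- indicator of zero -/
def dl : ℕ → ℤ := fun n => if n = 0 then 1 else 0

/-- constant one -/
def one : ℕ → ℤ := fun _ => 1

/-- the generators -/
def Gen (v : ℕ → ℕ) (k K B E : ℕ) : Set (ℕ → ℤ) :=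
  (⋃ e ∈ Finset.range (E + 1), ⋃ c ∈ Finset.range (k ^ e + B), {Fk v k B e c}) ∪
    (⋃ j ∈ Finset.range K, {ind K j}) ∪ {dl} ∪ {one}

theorem Gen_finite (v : ℕ → ℕ) (k K B E : ℕ) : (Gen v k K B E).Finite := by
  unfold Gen
  refine Set.Finite.union (Set.Finite.union (Set.Finite.union ?_ ?_) (Set.finite_singleton _))
    (Set.finite_singleton _)
  · refine Set.Finite.biUnion (Finset.finite_toSet _) fun e _ => ?_
    exact Set.Finite.biUnion (Finset.finite_toSet _) fun c _ => Set.finite_singleton _
  · exact Set.Finite.biUnion (Finset.finite_toSet _) fun c _ => Set.finite_singleton _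

theorem mem_Gen_F {B E e c : ℕ} (he : e ≤ E) (hc : c < k ^ e + B) : Fk v k B e c ∈ Gen v k K B E := by
  unfold Gen
  refine Or.inl (Or.inl (Or.inl ?_))
  simp only [Set.mem_iUnion, Finset.mem_range]
  exact ⟨e, by omega, c, hc, rfl⟩

theorem mem_Gen_ind {B E j : ℕ} (hj : j < K) : ind K j ∈ Gen v k K B E := by
  unfold Gen
  refine Or.inl (Or.inl (Or.inr ?_))
  simp only [Set.mem_iUnion, Finset.mem_range]
  exact ⟨j, hj, rfl⟩

theorem mem_Gen_dl {B E : ℕ} : dl ∈ Gen v k K B E := by
  unfold Gen
  exact Or.inl (Or.inr rfl)

theorem mem_Gen_one {B E : ℕ} : one ∈ Gen v k K B E := by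
  unfold Gen
  exact Or.inr rfl

theorem per_mem {G : Set (ℕ → ℤ)} (hK : 0 < K) (hi : ∀ j, j < K → ind K j ∈ G) (hd : dl ∈ G)
    {f : ℕ → ℤ} (hf : ∀ n, 1 ≤ n → f (n + K) = f n) : f ∈ Submodule.span ℤ G := by
  have hf2 : ∀ q n, 1 ≤ n → f (n + K * q) = f n := by
    intro q
    induction q with
    | zero => intro n _; simp
    | succ q ih =>
      intro n hn
      have : n + K * (q + 1) = (n + K * q) + K := by ring
      rw [this, hf _ (by omega), ih n hn]
  have e : f = (∑ j ∈ Finset.range K, f (j + K) • ind K j) + (f 0 - f K) • dl := by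
    funext n
    simp only [Pi.add_apply, Finset.sum_apply, Pi.smul_apply, smul_eq_mul, ind, dl]
    have h1 : ∑ j ∈ Finset.range K, f (j + K) * (if n % K = j then (1 : ℤ) else 0) = f (n % K + K) := by
      rw [Finset.sum_eq_single (n % K)]
      · simp
      · intro j _ hj
        rw [if_neg (fun h => hj h.symm)]; simp
      · intro h
        exact absurd (Finset.mem_range.mpr (Nat.mod_lt n hK)) h
    rw [h1]
    rcases Nat.eq_zero_or_pos n with h0 | h0
    · subst h0; simp
    · rw [if_neg (by omega)]
      have h2 := Nat.mod_add_div n K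
      have h3 : f (n % K + K) = f (n + K) := by
        have h4 : f ((n % K + K) + K * (n / K)) = f (n % K + K) := hf2 _ _ (by omega)
        rw [← h4]
        congr 1
        omega
      rw [h3, hf n h0]; simp
  rw [e]
  refine Submodule.add_mem _ (Submodule.sum_mem _ fun j hj => ?_) ?_
  · exact Submodule.smul_mem _ _ (Submodule.subset_span (hi j (Finset.mem_range.mp hj)))
  · exact Submodule.smul_mem _ _ (Submodule.subset_span hd)

theorem Str.F_mem (h : Str v k K d T D) :
    ∀ e c, c < k ^ e + (T + k) → Fk v k (T + k) e c ∈ Submodule.span ℤ (Gen v k K (T + k) (2 * T + k)) := by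
  have hk := h.hk
  have hT := h.hT
  have hK := h.hK
  intro e
  induction e with
  | zero =>
    intro c hc
    exact Submodule.subset_span (mem_Gen_F (Nat.zero_le _) hc)
  | succ e ih =>
    intro c hc
    by_cases he : e + 1 ≤ 2 * T + k
    · exact Submodule.subset_span (mem_Gen_F he hc)
    · -- large e
      have hke : 2 * T + k ≤ k ^ e := by
        have h1 : e < 2 ^ e := Nat.lt_two_pow_self
        have h2 : 2 ^ e ≤ k ^ e := Nat.pow_le_pow_left hk e
        omega
      have hpe : k ^ (e + 1) = k * k ^ e := by rw [pow_succ]; ring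
      have hke1 : k ^ e ≤ k ^ (e + 1) := by rw [hpe]; exact Nat.le_mul_of_pos_left _ (by omega)
      have hpos : ∀ n, 1 ≤ n → k ^ (e + 1) ≤ k ^ (e + 1) * n := fun n hn => Nat.le_mul_of_pos_right _ hn
      -- residue
      by_cases hr : (c + 1 + (k - 1) * (T + T + k)) % k = 0
      · -- column
        have hdiv : k ∣ c + 1 + (k - 1) * (T + T + k) := Nat.dvd_of_mod_eq_zero hr
        obtain ⟨u, hu⟩ := hdiv
        -- c + 1 - T - B = k (u - (2T+k)), c' = B + (u - (2T+k)) - 1
        have hu1 : c + 1 + k * (T + T + k) = k * u + (T + T + k) := by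
          have : (k - 1) * (T + T + k) = k * (T + T + k) - (T + T + k) := by
            rw [Nat.sub_mul, one_mul]
          have h3 : (T + T + k) ≤ k * (T + T + k) := Nat.le_mul_of_pos_left _ (by omega)
          omega
        have hlow : T + 1 ≤ u := by
          by_contra hcon
          push Not at hcon
          have h4 : k * u ≤ k * T := Nat.mul_le_mul_left _ (by omega)
          have h5 : k * (T + T + k) = k * T + k * T + k * k := by ring
          have h6 : 2 * T ≤ k * T := Nat.mul_le_mul_right _ hk
          have h7 : 2 * k ≤ k * k := Nat.mul_le_mul_right _ hk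
          omega
        have hup : u - (T + 1) < k ^ e + (T + k) := by
          by_contra hcon
          push Not at hcon
          have h4 : k * (k ^ e + (T + T + k) + 1) ≤ k * u := Nat.mul_le_mul_left _ (by omega)
          have h5 : k * (k ^ e + (T + T + k) + 1) = k * k ^ e + k * (T + T + k) + k := by ring
          omega
        have hF : Fk v k (T + k) (e + 1) c = Fk v k (T + k) e (u - (T + 1)) + (d : ℤ) • one +
            (Fk v k (T + k) (e + 1) c 0 - Fk v k (T + k) e (u - (T + 1)) 0 - d) • dl := by
          funext n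
          simp only [Pi.add_apply, Pi.smul_apply, smul_eq_mul, one, dl, mul_one]
          rcases Nat.eq_zero_or_pos n with h0 | h0
          · subst h0; simp
          · rw [if_neg (by omega)]
            simp only [Fk, mul_zero, add_zero]
            have hp := hpos n h0
            have hpe2 : k ^ e ≤ k ^ e * n := Nat.le_mul_of_pos_right _ h0
            have e1 : k ^ (e + 1) * n + c - (T + k) = T + k - 1 + k * (k ^ e * n + (u - (T + 1)) - (T + k)) := by
              have h8 : k * (k ^ e * n + (u - (T + 1)) - (T + k)) = k * k ^ e * n + k * u - k * (T + 1 + T + k) := by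
                have : k ^ e * n + (u - (T + 1)) - (T + k) = k ^ e * n + u - (T + 1 + T + k) := by omega
                rw [this, Nat.mul_sub, Nat.mul_add, ← mul_assoc]
              have h9 : k * (T + 1 + T + k) = k * (T + T + k) + k := by ring
              have h10 : k * (2 * T + k) ≤ k * k ^ e * n := by
                rw [mul_assoc]
                exact Nat.mul_le_mul_left _ (le_trans hke hpe2)
              have h11 : k * (T + T + k) = k * (2 * T + k) := by ring
              have h12 : k * (T + 1) ≤ k * u := Nat.mul_le_mul_left _ hlow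
              have h13 : k * (T + 1) = k * T + k := by ring
              rw [h8, hpe, h9]
              omega
            rw [e1, h.hcol]
            push_cast
            ring
        rw [hF]
        refine Submodule.add_mem _ (Submodule.add_mem _ (ih _ hup) ?_) ?_
        · exact Submodule.smul_mem _ _ (Submodule.subset_span mem_Gen_one)
        · exact Submodule.smul_mem _ _ (Submodule.subset_span mem_Gen_dl)
      · -- periodic
        apply per_mem hK (fun j hj => mem_Gen_ind hj) mem_Gen_dl
        intro n hn
        unfold Fk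
        have hp := hpos n hn
        have e1 : k ^ (e + 1) * (n + K) + c - (T + k) = (k ^ (e + 1) * n + c - (T + k)) + k ^ (e + 1) * K := by
          rw [Nat.mul_add]; omega
        rw [e1, h.per_dvd (by omega) _ (Dvd.intro_left _ rfl)]
        intro hcon
        apply hr
        have h14 : (k - 1) * (T + T + k) = k * (T + T + k) - (T + T + k) := by
          rw [Nat.sub_mul, one_mul]
        have h3 : (T + T + k) ≤ k * (T + T + k) := Nat.le_mul_of_pos_left _ (by omega)
        obtain ⟨z, hz⟩ := Nat.dvd_of_mod_eq_zero hcon
        have hdvd : k ∣ c + 1 + (k - 1) * (T + T + k) := by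
          have h15 : c + 1 + (k - 1) * (T + T + k) + k * (k ^ e * n) = k * z + k * (T + T + k) := by
            rw [← mul_assoc, ← hpe]
            omega
          have h16 : k ∣ k * z + k * (T + T + k) := ⟨z + (T + T + k), by ring⟩
          rw [← h15] at h16
          exact (Nat.dvd_add_left (Dvd.intro _ rfl)).mp h16
        exact Nat.mod_eq_zero_of_dvd hdvd

theorem Str.regular (h : Str v k K d T D) :
    (Submodule.span ℤ {f : ℕ → ℤ | ∃ e r : ℕ, r < k ^ e ∧ f = fun n => (v (k ^ e * n + r) : ℤ)}).FG := by
  apply Submodule.FG.of_le (Submodule.fg_span (Gen_finite v k K (T + k) (2 * T + k)))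
  apply Submodule.span_le.mpr
  rintro f ⟨e, r, hr, rfl⟩
  have := h.F_mem e (r + (T + k)) (by omega)
  have e1 : Fk v k (T + k) e (r + (T + k)) = fun n => (v (k ^ e * n + r) : ℤ) := by
    funext n
    unfold Fk
    congr 2
    omega
  rw [e1] at this
  exact this

end Pool.Agent.H70.AB
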