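import Pool.Agent.H70.AB.Sound
import Pool.Agent.H70.AB.Reg

/-!
# Definitions used in the statements, and the general conclusion
-/

namespace Pool.Agent.H70.AB

/-- w is a/b-power-free: no factor of length a n and period b n with n positive -/
def PowerFree (a b : ℕ) (w : ℕ → ℕ) : Prop :=
  ∀ i n : ℕ, 0 < n → ¬ ∀ j < (a - b) * n, w (i + j) = w (i + j + b * n)

/-- w is the lexicographically least a/b-power-free word -/
def LexLeast (a b : ℕ) (w : ℕ → ℕ) : Prop :=
  PowerFree a b w ∧ ∀ v : ℕ → ℕ, PowerFree a b v → (w = v ∨ ∃ i : ℕ, (∀ j < i, w j = v j) ∧ w i < v i)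

/-- the sequence s is k-regular: its k-kernel generates a finitely generated module -/
def Regular (k : ℕ) (s : ℕ → ℤ) : Prop :=
  (Submodule.span ℤ {f : ℕ → ℤ | ∃ e r : ℕ, r < k ^ e ∧ f = fun n => s (k ^ e * n + r)}).FG

theorem avoids_iff {b g : ℕ} {w : ℕ → ℕ} : PowerFree (b + g) b w ↔ Avoids b g w := by
  unfold PowerFree Avoids
  rw [Nat.add_sub_cancel_left]
  constructor
  · intro h i m hm
    have := h i m hm
    push Not at this
    exact this
  · intro h i m hm hcon
    obtain ⟨j, hj, hne⟩ := h i m hm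
    exact hne (hcon j hj)

theorem LexLeast.unique {a b : ℕ} {w v : ℕ → ℕ} (hw : LexLeast a b w) (hv : LexLeast a b v) : w = v := by
  rcases hw.2 v hv.1 with h | ⟨i, hi, hlt⟩
  · exact h
  rcases hv.2 w hw.1 with h | ⟨i', hi', hlt'⟩
  · exact h.symm
  exfalso
  rcases lt_trichotomy i i' with h | h | h
  · have := hi' i h; omega
  · subst h; omega
  · have := hi i' h; omega

theorem conclude {v : ℕ → ℕ} {b g k K d T D : ℕ}
    (hf : Str v k K d T D ∧ Avoids b g v ∧
      ∀ u, Avoids b g u → v = u ∨ ∃ n, (∀ j, j < n → v j = u j) ∧ v n < u n) :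
    (∃ w, LexLeast (b + g) b w) ∧ ∀ w, LexLeast (b + g) b w →
      (∀ i, w (k * i + (T + k - 1)) = w i + d) ∧
      (∀ m n, D ≤ m → D ≤ n → m ≡ n [MOD K] → ¬ m ≡ T + k - 1 [MOD k] → w m = w n) ∧
      Regular k (fun n => (w n : ℤ)) := by
  obtain ⟨hs, hav, hl⟩ := hf
  have hvL : LexLeast (b + g) b v := by
    refine ⟨avoids_iff.mpr hav, ?_⟩
    intro u hu
    exact hl u (avoids_iff.mp hu)
  refine ⟨⟨v, hvL⟩, ?_⟩
  intro w hw
  have : w = v := hw.unique hvL
  subst this
  have hk := hs.hk
  have hT := hs.hT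
  have hD := hs.hD
  refine ⟨?_, ?_, hs.regular⟩
  · intro i
    rw [add_comm]
    exact hs.hcol i
  · -- periodicity
    have hcolmod : ∀ m, D ≤ m → ¬ m ≡ T + k - 1 [MOD k] → (m + 1 < T ∨ (T ≤ m ∧ (m + 1 - T) % k ≠ 0)) := by
      intro m hm hc
      by_cases h1 : T ≤ m
      · right
        refine ⟨h1, fun hcon => hc ?_⟩
        obtain ⟨i, hi⟩ := hs.col_iff h1 hcon
        rw [hi]
        exact (Nat.modEq_iff_dvd' (by omega)).mpr ⟨i, by omega⟩ |>.symm
      · left
        by_contra hcon
        apply hc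
        have : m = T - 1 := by omega
        rw [this]
        exact (Nat.modEq_iff_dvd' (by omega)).mpr ⟨1, by omega⟩
    have step : ∀ q m, D ≤ m → ¬ m ≡ T + k - 1 [MOD k] → w (m + K * q) = w m := by
      intro q
      induction q with
      | zero => intro m _ _; simp
      | succ q ih =>
        intro m hm hc
        have e : m + K * (q + 1) = (m + K) + K * q := by ring
        have hmod : ¬ m + K ≡ T + k - 1 [MOD k] := by
          intro hcon
          apply hc
          have : m + K ≡ m [MOD k] := by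
            have := (Nat.modEq_zero_iff_dvd.mpr hs.hkK)
            simpa using Nat.ModEq.add_left m this
          exact this.symm.trans hcon
        rw [e, ih _ (by omega) hmod, hs.hper m hm (hcolmod m hm hc)]
    intro m n hm hn hmn hc
    rcases Nat.le_total m n with h | h
    · obtain ⟨q, hq⟩ := (Nat.modEq_iff_dvd' h).mp hmn
      have : n = m + K * q := by omega
      rw [this, step q m hm hc]
    · obtain ⟨q, hq⟩ := (Nat.modEq_iff_dvd' h).mp hmn.symm
      have hmq : m = n + K * q := by omega
      have hcn : ¬ n ≡ T + k - 1 [MOD k] := by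
        intro hcon
        apply hc
        have : m ≡ n [MOD k] := hmn.of_dvd hs.hkK
        exact this.trans hcon
      rw [hmq, step q n hn hcn]

end Pool.Agent.H70.AB
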