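import Pool.Agent.H70.AB.Core

/-!
# Packed masks: definitions
-/

namespace Pool.Agent.H70.AB

/-- parameters and bit planes of the letters, WC: positions of the columns -/
structure Dat where
  b : ℕ
  g : ℕ
  k : ℕ
  K : ℕ
  d : ℕ
  T : ℕ
  D : ℕ
  R : ℕ
  B0 : ℕ
  B1 : ℕ
  B2 : ℕ
  WC : ℕ

/-- if-then-else for numbers, reduced by the recursor -/
def sel (c : Bool) (x y : ℕ) : ℕ := Bool.rec (motive := fun _ => ℕ) y x c

/-- all ones -/
def ones (n : ℕ) : ℕ := Nat.sub (Nat.pow (nat_lit 2) n) (nat_lit 1)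

/-- known positions -/
def Dat.KN (A : Dat) : ℕ := Nat.xor (ones A.R) A.WC

/-- part of the mask KN on which the plane B has the value c -/
def Dat.pl (A : Dat) (B : ℕ) (c : Bool) : ℕ :=
  sel c (Nat.land A.KN B) (Nat.xor A.KN (Nat.land A.KN B))

/-- known positions with letter c0 + 2 c1 + 4 c2 -/
def Dat.eq3 (A : Dat) (c0 c1 c2 : Bool) : ℕ :=
  Nat.land (A.pl A.B0 c0) (Nat.land (A.pl A.B1 c1) (A.pl A.B2 c2))

/-- known positions with letter in the set p -/
def Dat.un (A : Dat) (p : ℕ → Bool) : ℕ :=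
  Nat.lor (sel (p (nat_lit 0)) (A.eq3 false false false) (nat_lit 0))
  (Nat.lor (sel (p (nat_lit 1)) (A.eq3 true false false) (nat_lit 0))
  (Nat.lor (sel (p (nat_lit 2)) (A.eq3 false true false) (nat_lit 0))
  (Nat.lor (sel (p (nat_lit 3)) (A.eq3 true true false) (nat_lit 0))
  (Nat.lor (sel (p (nat_lit 4)) (A.eq3 false false true) (nat_lit 0))
  (Nat.lor (sel (p (nat_lit 5)) (A.eq3 true false true) (nat_lit 0))
  (Nat.lor (sel (p (nat_lit 6)) (A.eq3 false true true) (nat_lit 0))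
  (sel (p (nat_lit 7)) (A.eq3 true true true) (nat_lit 0))))))))

/-- known positions with letter less than d -/
def Dat.LT (A : Dat) : ℕ := A.un (fun c => Nat.ble (Nat.succ c) A.d)

/-- letters differ (used at known positions only) -/
def Dat.X (A : Dat) (δ : ℕ) : ℕ :=
  Nat.lor (Nat.xor A.B0 (Nat.shiftRight A.B0 δ))
    (Nat.lor (Nat.xor A.B1 (Nat.shiftRight A.B1 δ)) (Nat.xor A.B2 (Nat.shiftRight A.B2 δ)))

/-- definite mismatches between n and n + δ -/
def Dat.mism (A : Dat) (δ : ℕ) : ℕ :=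
  Nat.lor (Nat.land (A.X δ) (Nat.land A.KN (Nat.shiftRight A.KN δ)))
    (Nat.lor (Nat.land A.WC (Nat.shiftRight A.LT δ)) (Nat.land (Nat.shiftRight A.WC δ) A.LT))

/-- one step of the doubling -/
def sprStep (M ℓ S : ℕ) : ℕ :=
  sel (Nat.beq (Nat.mod ℓ (nat_lit 2)) (nat_lit 0))
    (Nat.lor S (Nat.shiftRight S (Nat.div ℓ (nat_lit 2))))
    (Nat.lor (Nat.lor S (Nat.shiftRight S (Nat.div ℓ (nat_lit 2)))) (Nat.shiftRight M (Nat.sub ℓ (nat_lit 1))))

/-- bits i such that M has a bit in [i, i + ℓ) -/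
def spr (M f : ℕ) : ℕ → ℕ :=
  Nat.rec (motive := fun _ => ℕ → ℕ) (fun _ => nat_lit 0)
    (fun _ ih ℓ => sel (Nat.beq ℓ (nat_lit 1)) M (sprStep M ℓ (ih (Nat.div ℓ (nat_lit 2))))) f

/-- one step of the doubling, intersection -/
def sprAStep (M ℓ S : ℕ) : ℕ :=
  sel (Nat.beq (Nat.mod ℓ (nat_lit 2)) (nat_lit 0))
    (Nat.land S (Nat.shiftRight S (Nat.div ℓ (nat_lit 2))))
    (Nat.land (Nat.land S (Nat.shiftRight S (Nat.div ℓ (nat_lit 2)))) (Nat.shiftRight M (Nat.sub ℓ (nat_lit 1))))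

/-- bits i such that M contains [i, i + ℓ), F for empty intervals -/
def sprA (F M f : ℕ) : ℕ → ℕ :=
  Nat.rec (motive := fun _ => ℕ → ℕ) (fun _ => nat_lit 0)
    (fun _ ih ℓ => sel (Nat.beq ℓ (nat_lit 0)) F (sel (Nat.beq ℓ (nat_lit 1)) M
      (sprAStep M ℓ (ih (Nat.div ℓ (nat_lit 2)))))) f

/-- the mask S contains all bits less than n -/
def cover (S n : ℕ) : Bool := Nat.beq (Nat.land S (ones n)) (ones n)

/-- all windows of length g m starting before T + K contain a mismatch for the shift b m;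
if K divides b m: all windows starting before D -/
def Dat.chk (A : Dat) (m : ℕ) : Bool :=
  cover (spr (A.mism (Nat.mul A.b m)) (nat_lit 24) (Nat.mul A.g m))
    (sel (Nat.beq (Nat.mod (Nat.mul A.b m) A.K) (nat_lit 0)) A.D (Nat.add A.T A.K))

/-- chk for all m in [lo, lo + cnt) -/
def Dat.chkR (A : Dat) (lo cnt : ℕ) : Bool :=
  Nat.rec (motive := fun _ => Bool) true (fun i ih => Bool.rec false ih (A.chk (Nat.add lo i))) cnt

/-- positions compatible with the known letter c -/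
def Dat.Em (A : Dat) (c : ℕ) : ℕ :=
  Nat.lor (A.un (fun x => Nat.beq x c)) (sel (Nat.ble A.d c) A.WC (nat_lit 0))

/-- candidates for the anchor with the offsets and letters in the list (entries 8 * offset + letter) -/
def Dat.cand (A : Dat) (Q : ℕ) (J : List ℕ) : ℕ :=
  List.rec (motive := fun _ => ℕ) Q
    (fun x _ ih => Nat.land ih (Nat.shiftRight (A.Em (Nat.mod x (nat_lit 8))) (Nat.div x (nat_lit 8)))) J

/-- the letters at p + offset are as in the list -/
def Dat.here (A : Dat) (p lim : ℕ) (J : List ℕ) : Bool :=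
  List.rec (motive := fun _ => Bool) true
    (fun x _ ih => Bool.rec false (Bool.rec false ih
      (Nat.ble (Nat.succ (Nat.add p (Nat.div x (nat_lit 8)))) lim))
      (Nat.beq (Nat.mod (Nat.shiftRight (A.un (fun y => Nat.beq y (Nat.mod x (nat_lit 8))))
        (Nat.add p (Nat.div x (nat_lit 8)))) (nat_lit 2)) (nat_lit 1))) J

/-- the candidates at positions at least low are at most the position p + K z -/
def Dat.uniq (A : Dat) (p z low Q : ℕ) : Bool :=
  Bool.rec (Bool.rec (Nat.beq (Nat.shiftRight Q low)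
      (Nat.pow (nat_lit 2) (Nat.sub (Nat.add p (Nat.mul A.K z)) low)))
      true (Nat.beq (Nat.shiftRight Q low) (nat_lit 0)))
    false (Nat.ble (Nat.succ (Nat.add p (Nat.mul A.K z))) low)

/-- one anchor -/
def Dat.anc (A : Dat) (M p z lim : ℕ) (J : List ℕ) : Bool :=
  Bool.rec false (A.uniq p z (Nat.min (Nat.add p (Nat.mul A.b M)) A.T)
    (A.cand (ones (Nat.add A.T A.K)) J)) (A.here p lim J)

/-- list of anchors covering the windows of length L starting in [lo, T + K) -/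
def Dat.ancs (A : Dat) (M L hi : ℕ) (l : List (ℕ × ℕ × List ℕ)) : ℕ → Bool :=
  List.rec (motive := fun _ => ℕ → Bool) (fun lo => Nat.ble hi lo)
    (fun a _ ih lo => Bool.rec false (Bool.rec false (ih (Nat.succ a.1))
      (A.anc M a.1 a.2.1 (Nat.add lo L) a.2.2)) (Nat.ble lo a.1)) l

/-- strict equality mask for the shift δ -/
def Dat.SE (A : Dat) (δ : ℕ) : ℕ :=
  Nat.xor (Nat.land A.KN (Nat.shiftRight A.KN δ))
    (Nat.land (Nat.land A.KN (Nat.shiftRight A.KN δ)) (A.X δ))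

/-- blocked positions for the letter x by the witness m -/
def Dat.blm (A : Dat) (x m : ℕ) : ℕ :=
  Nat.shiftLeft (Nat.land (sprA (ones A.R) (A.SE (Nat.mul A.b m)) (nat_lit 24) (Nat.sub (Nat.mul A.g m) (nat_lit 1)))
    (Nat.shiftRight (A.un (fun y => Nat.beq y x)) (Nat.sub (Nat.mul A.g m) (nat_lit 1))))
    (Nat.sub (Nat.mul (Nat.add A.b A.g) m) (nat_lit 1))

/-- blocked positions for the letter x -/
def Dat.blx (A : Dat) (x : ℕ) (W : List ℕ) : ℕ :=
  List.rec (motive := fun _ => ℕ) (nat_lit 0) (fun m _ ih => Nat.lor ih (A.blm x m)) W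

/-- positions at which the letter x has to be blocked -/
def Dat.needx (A : Dat) (x : ℕ) : ℕ :=
  Nat.lor (A.un (fun y => Nat.ble (Nat.succ x) y)) (sel (Nat.ble (Nat.succ x) A.d) A.WC (nat_lit 0))

/-- all needs for x are satisfied below N3 -/
def Dat.okx (A : Dat) (N3 : ℕ) (W : List ℕ) (x : ℕ) : Bool :=
  Nat.beq (Nat.land (A.blx x W) (Nat.land (A.needx x) (ones N3))) (Nat.land (A.needx x) (ones N3))

/-- bounds for the witnesses -/
def bndW (mx : ℕ) (W : List ℕ) : Bool :=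
  List.rec (motive := fun _ => Bool) true
    (fun m _ ih => Bool.rec false (Bool.rec false ih (Nat.ble m mx)) (Nat.ble (nat_lit 1) m)) W

/-- leastness check -/
def Dat.lea (A : Dat) (N3 : ℕ) (W : List ℕ) : Bool :=
  (A.okx N3 W (nat_lit 0)) && (A.okx N3 W (nat_lit 1)) && (A.okx N3 W (nat_lit 2)) &&
  (A.okx N3 W (nat_lit 3)) && (A.okx N3 W (nat_lit 4)) && (A.okx N3 W (nat_lit 5)) && (A.okx N3 W (nat_lit 6))

/-- periodicity of a plane -/
def Dat.perB (A : Dat) (B : ℕ) : Bool :=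
  Nat.beq (Nat.shiftRight B (Nat.add A.T A.K))
    (Nat.mod (Nat.shiftRight B A.T) (Nat.pow (nat_lit 2) (Nat.sub A.R (Nat.add A.T A.K))))

/-- agreement of a plane with its continuation in [D, T - 1) -/
def Dat.devB (A : Dat) (B : ℕ) : Bool :=
  Nat.beq (Nat.mod (Nat.xor (Nat.shiftRight B A.D) (Nat.shiftRight B (Nat.add A.D A.K)))
    (Nat.pow (nat_lit 2) (Nat.sub (Nat.sub A.T (nat_lit 1)) A.D))) (nat_lit 0)

/-- the column mask is right -/
def Dat.wcOK (A : Dat) : Bool :=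
  (Nat.beq (Nat.mod A.WC (Nat.pow (nat_lit 2) A.T)) (nat_lit 0)) &&
  (Nat.beq (Nat.mod (Nat.shiftRight A.WC A.T) (Nat.pow (nat_lit 2) A.k)) (Nat.pow (nat_lit 2) (Nat.sub A.k (nat_lit 1)))) &&
  (Nat.beq (Nat.shiftRight A.WC (Nat.add A.T A.k))
    (Nat.mod (Nat.shiftRight A.WC A.T) (Nat.pow (nat_lit 2) (Nat.sub A.R (Nat.add A.T A.k)))))

/-- numerical conditions -/
def Dat.numOK (A : Dat) : Bool :=
  (Nat.ble (nat_lit 1) A.b) && (Nat.ble (nat_lit 1) A.g) && (Nat.ble (nat_lit 2) A.k) &&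
  (Nat.ble (nat_lit 1) A.K) && (Nat.beq (Nat.mod A.K A.k) (nat_lit 0)) &&
  (Nat.beq (Nat.mod (Nat.mul A.b A.k) A.K) (nat_lit 0)) &&
  (Nat.ble (nat_lit 1) A.T) && (Nat.ble A.D A.T) && (Nat.ble A.T (Nat.add A.D A.k)) &&
  (Nat.ble (Nat.add A.T (Nat.add A.K A.k)) A.R) && (Nat.ble A.d (nat_lit 7)) &&
  (A.perB A.B0) && (A.perB A.B1) && (A.perB A.B2) &&
  (A.devB A.B0) && (A.devB A.B1) && (A.devB A.B2) && A.wcOK

/-- deviation check: for the shift K J0, windows of length L starting before D contain a mismatch -/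
def Dat.devchk (A : Dat) (L J0 : ℕ) : Bool :=
  cover (spr (A.mism (Nat.mul A.K J0)) (nat_lit 24) L) A.D

/-- more numerical conditions -/
def Dat.numOK2 (A : Dat) (M L J0 N2 mx : ℕ) : Bool :=
  (Nat.beq (Nat.mod (Nat.div A.K (Nat.gcd A.K A.b)) A.k) (nat_lit 0)) &&
  (Nat.ble L (Nat.mul A.g M)) && (Nat.ble (nat_lit 1) M) && (Nat.ble A.T (Nat.mul A.K J0)) &&
  (Nat.ble (Nat.add A.T (Nat.add A.K L)) A.R) && (Nat.ble (Nat.add N2 A.K) A.R) &&
  (Nat.ble (Nat.add A.T (Nat.mul (Nat.add A.b A.g) mx)) (Nat.succ N2)) && (Nat.ble A.T N2) &&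
  ((Nat.ble A.T (Nat.mul A.b M)) || (Nat.ble A.T (Nat.mul A.b A.k)))

/-- the letter at T - 1 is less than d -/
def Dat.v1 (A : Dat) : Bool :=
  Nat.beq (Nat.mod (Nat.shiftRight A.LT (Nat.sub A.T (nat_lit 1))) (nat_lit 2)) (nat_lit 1)

/-- virtual letter check for one m -/
def Dat.vm (A : Dat) (e m : ℕ) : Bool :=
  Bool.rec (Bool.rec true false (Nat.beq (Nat.mod (A.mism (Nat.mul A.b m))
      (Nat.pow (nat_lit 2) (Nat.sub (Nat.mul A.g m) (nat_lit 1)))) (nat_lit 0))) true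
    (Nat.beq (Nat.mod (Nat.shiftRight (A.Em e) (Nat.sub (Nat.mul A.b m) (nat_lit 1))) (nat_lit 2)) (nat_lit 0))

/-- virtual letter check for 0 < m < M -/
def Dat.vR (A : Dat) (e M : ℕ) : Bool :=
  Nat.rec (motive := fun _ => Bool) true (fun i ih => Bool.rec false ih
    (Bool.rec (A.vm e i) true (Nat.beq i (nat_lit 0)))) M

/-- virtual letter check -/
def Dat.v2 (A : Dat) (e M p : ℕ) (J : List ℕ) : Bool :=
  (Nat.beq (Nat.mod (Nat.shiftRight (A.un (fun y => Nat.beq y (Nat.add e A.d))) (Nat.sub A.T (nat_lit 1))) (nat_lit 2)) (nat_lit 1)) &&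
  (Nat.ble (Nat.succ p) A.T) && (Nat.ble (Nat.mul A.b M) A.R) && (Nat.ble (Nat.add A.T (Nat.add A.K (Nat.mul A.g M))) A.R) &&
  (A.here p (Nat.sub (Nat.mul A.g M) (nat_lit 1)) J) &&
  (Nat.beq (Nat.shiftRight (A.cand (ones (Nat.add A.T A.K)) J) (Nat.succ p)) (nat_lit 0)) && (A.vR e M)

end Pool.Agent.H70.AB
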