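import Pool.Agent.H70.AB.Mask

/-!
# Soundness of the packed masks
-/

namespace Pool.Agent.H70.AB

theorem tb_land (x y i : ℕ) : (Nat.land x y).testBit i = (x.testBit i && y.testBit i) :=
  Nat.testBit_and x y i

theorem tb_lor (x y i : ℕ) : (Nat.lor x y).testBit i = (x.testBit i || y.testBit i) :=
  Nat.testBit_or x y i

theorem tb_xor (x y i : ℕ) : (Nat.xor x y).testBit i = (x.testBit i ^^ y.testBit i) :=
  Nat.testBit_xor x y i

theorem tb_shr (x n i : ℕ) : (Nat.shiftRight x n).testBit i = x.testBit (n + i) :=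
  Nat.testBit_shiftRight x

theorem tb_shl (x n i : ℕ) : (Nat.shiftLeft x n).testBit i = (decide (i ≥ n) && x.testBit (i - n)) :=
  Nat.testBit_shiftLeft x

theorem tb_ones (n i : ℕ) : (ones n).testBit i = decide (i < n) :=
  Nat.testBit_two_pow_sub_one n i

theorem tb_pow (n i : ℕ) : (Nat.pow 2 n).testBit i = decide (n = i) :=
  Nat.testBit_two_pow

theorem tb_mod (x n i : ℕ) : (Nat.mod x (Nat.pow 2 n)).testBit i = (decide (i < n) && x.testBit i) :=
  Nat.testBit_mod_two_pow x n i

theorem mod2_tb (x n : ℕ) : Nat.beq (Nat.mod (Nat.shiftRight x n) 2) 1 = x.testBit n := by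
  have h := Nat.testBit_eq_decide_div_mod_eq (x := x) (i := n)
  have e : Nat.shiftRight x n = x / 2 ^ n := Nat.shiftRight_eq_div_pow x n
  have e2 : Nat.mod (Nat.shiftRight x n) 2 = x / 2 ^ n % 2 := by rw [e]; rfl
  rw [h, e2]
  rcases Nat.mod_two_eq_zero_or_one (x / 2 ^ n) with h0 | h0 <;> rw [h0] <;> rfl

theorem mod2_tb0 (x n : ℕ) : Nat.beq (Nat.mod (Nat.shiftRight x n) 2) 0 = !x.testBit n := by
  have h := Nat.testBit_eq_decide_div_mod_eq (x := x) (i := n)
  have e : Nat.shiftRight x n = x / 2 ^ n := Nat.shiftRight_eq_div_pow x n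
  have e2 : Nat.mod (Nat.shiftRight x n) 2 = x / 2 ^ n % 2 := by rw [e]; rfl
  rw [h, e2]
  rcases Nat.mod_two_eq_zero_or_one (x / 2 ^ n) with h0 | h0 <;> rw [h0] <;> rfl

theorem sel_true (x y : ℕ) : sel true x y = x := rfl
theorem sel_false (x y : ℕ) : sel false x y = y := rfl

theorem tb_sel (c : Bool) (x y i : ℕ) : (sel c x y).testBit i = bif c then x.testBit i else y.testBit i := by
  cases c <;> rfl

theorem beq_eq {x y : ℕ} (h : Nat.beq x y = true) : x = y := Nat.eq_of_beq_eq_true h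

theorem cover_sound {S n : ℕ} (h : cover S n = true) {i : ℕ} (hi : i < n) : S.testBit i = true := by
  have h1 := beq_eq h
  have h2 : (Nat.land S (ones n)).testBit i = (ones n).testBit i := by rw [h1]
  rw [tb_land, tb_ones] at h2
  simpa [hi] using h2

theorem spr_zero (M ℓ : ℕ) : spr M 0 ℓ = 0 := rfl
theorem spr_succ (M f ℓ : ℕ) : spr M (f + 1) ℓ = sel (Nat.beq ℓ 1) M (sprStep M ℓ (spr M f (Nat.div ℓ 2))) := rfl

theorem sprStep_tb {M ℓ S i : ℕ} (h : (sprStep M ℓ S).testBit i = true) :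
    S.testBit i = true ∨ S.testBit (ℓ / 2 + i) = true ∨ (ℓ % 2 = 1 ∧ M.testBit (ℓ - 1 + i) = true) := by
  unfold sprStep at h
  rw [tb_sel] at h
  by_cases hc : Nat.beq (Nat.mod ℓ 2) 0 = true
  · rw [hc] at h
    simp only [cond_true] at h
    rw [tb_lor, tb_shr] at h
    rcases Bool.or_eq_true_iff.mp h with h1 | h1
    · exact Or.inl h1
    · exact Or.inr (Or.inl h1)
  · have hc' : Nat.beq (Nat.mod ℓ 2) 0 = false := (Bool.not_eq_true _).mp hc
    rw [hc'] at h
    simp only [cond_false] at h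
    rw [tb_lor, tb_lor, tb_shr, tb_shr] at h
    rcases Bool.or_eq_true_iff.mp h with h1 | h1
    · rcases Bool.or_eq_true_iff.mp h1 with h2 | h2
      · exact Or.inl h2
      · exact Or.inr (Or.inl h2)
    · refine Or.inr (Or.inr ⟨?_, h1⟩)
      rcases Nat.mod_two_eq_zero_or_one ℓ with h0 | h0
      · exfalso; apply hc
        have : Nat.mod ℓ 2 = 0 := h0
        rw [this]; rfl
      · exact h0

theorem spr_sound (M : ℕ) : ∀ f ℓ i, (spr M f ℓ).testBit i = true → ∃ j, j < ℓ ∧ M.testBit (i + j) = true := by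
  intro f
  induction f with
  | zero =>
    intro ℓ i h
    rw [spr_zero] at h; simp at h
  | succ f ih =>
    intro ℓ i h
    rw [spr_succ, tb_sel] at h
    by_cases h1 : Nat.beq ℓ 1 = true
    · rw [h1] at h
      simp only [cond_true] at h
      refine ⟨0, ?_, by simpa using h⟩
      rw [beq_eq h1]; omega
    · have h1' : Nat.beq ℓ 1 = false := (Bool.not_eq_true _).mp h1
      rw [h1'] at h
      simp only [cond_false] at h
      have hd : Nat.div ℓ 2 = ℓ / 2 := rfl
      rw [hd] at h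
      rcases sprStep_tb h with h2 | h2 | ⟨h2, h3⟩
      · obtain ⟨j, hj, hM⟩ := ih _ _ h2
        exact ⟨j, by omega, hM⟩
      · obtain ⟨j, hj, hM⟩ := ih _ _ h2
        refine ⟨ℓ / 2 + j, by omega, ?_⟩
        rw [show i + (ℓ / 2 + j) = ℓ / 2 + i + j by ring]; exact hM
      · refine ⟨ℓ - 1, by omega, ?_⟩
        rw [show i + (ℓ - 1) = ℓ - 1 + i by ring]; exact h3

theorem sprA_zero (F M ℓ : ℕ) : sprA F M 0 ℓ = 0 := rfl
theorem sprA_succ (F M f ℓ : ℕ) : sprA F M (f + 1) ℓ = sel (Nat.beq ℓ 0) F (sel (Nat.beq ℓ 1) M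
      (sprAStep M ℓ (sprA F M f (Nat.div ℓ 2)))) := rfl

theorem sprAStep_tb {M ℓ S i : ℕ} (h : (sprAStep M ℓ S).testBit i = true) :
    S.testBit i = true ∧ S.testBit (ℓ / 2 + i) = true ∧ (ℓ % 2 = 1 → M.testBit (ℓ - 1 + i) = true) := by
  unfold sprAStep at h
  rw [tb_sel] at h
  by_cases hc : Nat.beq (Nat.mod ℓ 2) 0 = true
  · rw [hc] at h
    simp only [cond_true] at h
    rw [tb_land, tb_shr] at h
    obtain ⟨h1, h2⟩ := Bool.and_eq_true_iff.mp h
    refine ⟨h1, h2, fun h3 => ?_⟩
    have h4 : ℓ % 2 = 0 := beq_eq hc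
    omega
  · have hc' : Nat.beq (Nat.mod ℓ 2) 0 = false := (Bool.not_eq_true _).mp hc
    rw [hc'] at h
    simp only [cond_false] at h
    rw [tb_land, tb_land, tb_shr, tb_shr] at h
    obtain ⟨h1, h2⟩ := Bool.and_eq_true_iff.mp h
    obtain ⟨h3, h4⟩ := Bool.and_eq_true_iff.mp h1
    exact ⟨h3, h4, fun _ => h2⟩

theorem sprA_sound (F M : ℕ) : ∀ f ℓ i, (sprA F M f ℓ).testBit i = true → ∀ j, j < ℓ → M.testBit (i + j) = true := by
  intro f
  induction f with
  | zero =>
    intro ℓ i h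
    rw [sprA_zero] at h; simp at h
  | succ f ih =>
    intro ℓ i h j hj
    rw [sprA_succ, tb_sel] at h
    have h0' : Nat.beq ℓ 0 = false := by
      by_contra hcon
      have : Nat.beq ℓ 0 = true := by simpa using hcon
      have := beq_eq this
      omega
    rw [h0'] at h
    simp only [cond_false] at h
    rw [tb_sel] at h
    by_cases h1 : Nat.beq ℓ 1 = true
    · rw [h1] at h
      simp only [cond_true] at h
      have : ℓ = 1 := beq_eq h1
      have : j = 0 := by omega
      subst this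
      simpa using h
    · have h1' : Nat.beq ℓ 1 = false := (Bool.not_eq_true _).mp h1
      rw [h1'] at h
      simp only [cond_false] at h
      have hd : Nat.div ℓ 2 = ℓ / 2 := rfl
      rw [hd] at h
      obtain ⟨h2, h3, h4⟩ := sprAStep_tb h
      by_cases hj1 : j < ℓ / 2
      · exact ih _ _ h2 j hj1
      · by_cases hj2 : j < ℓ / 2 + ℓ / 2
        · have := ih _ _ h3 (j - ℓ / 2) (by omega)
          rw [show ℓ / 2 + i + (j - ℓ / 2) = i + j by omega] at this
          exact this
        · have := h4 (by omega)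
          rw [show ℓ - 1 + i = i + j by omega] at this
          exact this

/-- the letter given by the planes -/
def Dat.letter (A : Dat) (n : ℕ) : ℕ :=
  (A.B0.testBit n).toNat + 2 * (A.B1.testBit n).toNat + 4 * (A.B2.testBit n).toNat

theorem Dat.letter_lt (A : Dat) (n : ℕ) : A.letter n < 8 := by
  unfold Dat.letter
  have h0 := Bool.toNat_le (A.B0.testBit n)
  have h1 := Bool.toNat_le (A.B1.testBit n)
  have h2 := Bool.toNat_le (A.B2.testBit n)
  omega

theorem Dat.KN_tb (A : Dat) (n : ℕ) : A.KN.testBit n = (decide (n < A.R) ^^ A.WC.testBit n) := by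
  unfold Dat.KN
  rw [tb_xor, tb_ones]

theorem Dat.pl_tb (A : Dat) (B : ℕ) (c : Bool) (n : ℕ) :
    (A.pl B c).testBit n = (A.KN.testBit n && (B.testBit n == c)) := by
  unfold Dat.pl
  rw [tb_sel, tb_xor, tb_land]
  cases c <;> cases A.KN.testBit n <;> cases B.testBit n <;> rfl

theorem Dat.eq3_tb (A : Dat) (c0 c1 c2 : Bool) (n : ℕ) :
    (A.eq3 c0 c1 c2).testBit n = (A.KN.testBit n && ((A.B0.testBit n == c0) && (A.B1.testBit n == c1) && (A.B2.testBit n == c2))) := by
  unfold Dat.eq3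
  rw [tb_land, tb_land, A.pl_tb, A.pl_tb, A.pl_tb]
  cases A.KN.testBit n <;> simp [Bool.and_assoc]

theorem Dat.un_tb (A : Dat) (p : ℕ → Bool) (n : ℕ) :
    (A.un p).testBit n = (A.KN.testBit n && p (A.letter n)) := by
  unfold Dat.un Dat.letter
  simp only [tb_lor, tb_sel, A.eq3_tb, Nat.zero_testBit]
  cases A.KN.testBit n <;> cases A.B0.testBit n <;> cases A.B1.testBit n <;> cases A.B2.testBit n <;>
    simp

theorem Dat.X_tb (A : Dat) (δ n : ℕ) : (A.X δ).testBit n = decide (A.letter n ≠ A.letter (n + δ)) := by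
  unfold Dat.X Dat.letter
  simp only [tb_lor, tb_xor, tb_shr]
  rw [show δ + n = n + δ by ring]
  cases A.B0.testBit n <;> cases A.B1.testBit n <;> cases A.B2.testBit n <;>
    cases A.B0.testBit (n + δ) <;> cases A.B1.testBit (n + δ) <;> cases A.B2.testBit (n + δ) <;>
    rfl

/-- the facts about the data which are used -/
structure Dat.OK (A : Dat) : Prop where
  hb : 1 ≤ A.b
  hg : 1 ≤ A.g
  hk : 2 ≤ A.k
  hK : 1 ≤ A.K
  hkK : A.k ∣ A.K
  hKbk : A.K ∣ A.b * A.k
  hT : 1 ≤ A.T
  hD : A.D ≤ A.T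
  hDk : A.T ≤ A.D + A.k
  hR : A.T + (A.K + A.k) ≤ A.R
  hd : A.d ≤ 7
  hper : ∀ n, A.T ≤ n → n + A.K < A.R → A.letter (n + A.K) = A.letter n
  hdev : ∀ n, A.D ≤ n → n + 1 < A.T → A.letter (n + A.K) = A.letter n
  hwc : ∀ n, A.WC.testBit n = true ↔ (A.T ≤ n ∧ n < A.R ∧ (n + 1 - A.T) % A.k = 0)

theorem perB_sound {A : Dat} {B : ℕ} (h : A.perB B = true) {n : ℕ} (hn : A.T ≤ n) (hR : n + A.K < A.R) :
    B.testBit (n + A.K) = B.testBit n := by
  have h1 := beq_eq h
  have h2 := congrArg (fun z => Nat.testBit z (n - A.T)) h1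
  simp only at h2
  rw [tb_shr, tb_mod, tb_shr] at h2
  have e1 : Nat.add A.T A.K + (n - A.T) = n + A.K := by
    change A.T + A.K + (n - A.T) = _
    omega
  have e2 : A.T + (n - A.T) = n := by omega
  have e3 : n - A.T < Nat.sub A.R (Nat.add A.T A.K) := by
    change n - A.T < A.R - (A.T + A.K)
    omega
  rw [e1, e2] at h2
  simp only [e3, decide_true, Bool.true_and] at h2
  exact h2

theorem devB_sound {A : Dat} {B : ℕ} (h : A.devB B = true) {n : ℕ} (hn : A.D ≤ n) (hT : n + 1 < A.T) :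
    B.testBit (n + A.K) = B.testBit n := by
  have h1 := beq_eq h
  have h2 := congrArg (fun z => Nat.testBit z (n - A.D)) h1
  simp only at h2
  rw [tb_mod, tb_xor, tb_shr, tb_shr] at h2
  have e1 : Nat.add A.D A.K + (n - A.D) = n + A.K := by
    change A.D + A.K + (n - A.D) = _
    omega
  have e2 : A.D + (n - A.D) = n := by omega
  have e3 : n - A.D < Nat.sub (Nat.sub A.T 1) A.D := by
    change n - A.D < A.T - 1 - A.D
    omega
  rw [e1, e2] at h2
  simp only [e3, decide_true, Bool.true_and, Nat.zero_testBit] at h2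
  revert h2
  cases B.testBit (n + A.K) <;> cases B.testBit n <;> simp

theorem wcOK_sound {A : Dat} (h : A.wcOK = true) (hk : 1 ≤ A.k) (hR : A.T + A.k ≤ A.R) :
    ∀ n, A.WC.testBit n = true ↔ (A.T ≤ n ∧ n < A.R ∧ (n + 1 - A.T) % A.k = 0) := by
  unfold Dat.wcOK at h
  rw [Bool.and_eq_true_iff, Bool.and_eq_true_iff] at h
  obtain ⟨⟨h1, h2⟩, h3⟩ := h
  have h1 := beq_eq h1
  have h2 := beq_eq h2
  have h3 := beq_eq h3
  intro n
  induction n using Nat.strong_induction_on with
  | _ n ih =>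
  by_cases hn : n < A.T
  · have h4 := congrArg (fun z => Nat.testBit z n) h1
    simp only at h4
    rw [tb_mod] at h4
    simp only [hn, decide_true, Bool.true_and, Nat.zero_testBit] at h4
    rw [h4]
    constructor
    · intro hh; simp at hh
    · intro hh; omega
  · by_cases hn2 : n < A.T + A.k
    · have h4 := congrArg (fun z => Nat.testBit z (n - A.T)) h2
      simp only at h4
      rw [tb_mod, tb_shr, tb_pow] at h4
      have e1 : n - A.T < A.k := by omega
      have e2 : A.T + (n - A.T) = n := by omega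
      rw [e2] at h4
      simp only [e1, decide_true, Bool.true_and] at h4
      rw [h4]
      have e3 : Nat.sub A.k 1 = A.k - 1 := rfl
      rw [e3, decide_eq_true_iff]
      constructor
      · intro hh
        refine ⟨by omega, by omega, ?_⟩
        have : n + 1 - A.T = A.k := by omega
        rw [this, Nat.mod_self]
      · rintro ⟨-, -, hh⟩
        by_contra hcon
        have h5 : n + 1 - A.T < A.k := by omega
        rw [Nat.mod_eq_of_lt h5] at hh
        omega
    · have h4 := congrArg (fun z => Nat.testBit z (n - A.T - A.k)) h3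
      simp only at h4
      rw [tb_shr, tb_mod, tb_shr] at h4
      have e1 : Nat.add A.T A.k + (n - A.T - A.k) = n := by
        change A.T + A.k + (n - A.T - A.k) = n
        omega
      have e2 : A.T + (n - A.T - A.k) = n - A.k := by omega
      rw [e1, e2] at h4
      rw [h4, Bool.and_eq_true_iff, decide_eq_true_iff, ih (n - A.k) (by omega)]
      have e4 : Nat.sub A.R (Nat.add A.T A.k) = A.R - (A.T + A.k) := rfl
      rw [e4]
      have e3 : (n - A.k + 1 - A.T) % A.k = (n + 1 - A.T) % A.k := by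
        have : n + 1 - A.T = (n - A.k + 1 - A.T) + A.k := by omega
        rw [this, Nat.add_mod_right]
      rw [e3]
      constructor
      · rintro ⟨h5, h6, h7, h8⟩
        exact ⟨by omega, by omega, h8⟩
      · rintro ⟨h5, h6, h7⟩
        exact ⟨by omega, by omega, by omega, h7⟩

theorem numOK_sound {A : Dat} (h : A.numOK = true) : A.OK := by
  unfold Dat.numOK at h
  simp only [Bool.and_eq_true] at h
  obtain ⟨⟨⟨⟨⟨⟨⟨⟨⟨⟨⟨⟨⟨⟨⟨⟨⟨h1, h2⟩, h3⟩, h4⟩, h5⟩, h6⟩, h7⟩, h8⟩, h9⟩, h10⟩, h11⟩, p0⟩, p1⟩, p2⟩, d0⟩, d1⟩, d2⟩, hw⟩ := h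
  have h3' : 2 ≤ A.k := Nat.le_of_ble_eq_true h3
  have h10' : A.T + (A.K + A.k) ≤ A.R := Nat.le_of_ble_eq_true h10
  refine ⟨Nat.le_of_ble_eq_true h1, Nat.le_of_ble_eq_true h2, h3', Nat.le_of_ble_eq_true h4,
    Nat.dvd_of_mod_eq_zero (beq_eq h5), Nat.dvd_of_mod_eq_zero (beq_eq h6),
    Nat.le_of_ble_eq_true h7, Nat.le_of_ble_eq_true h8, Nat.le_of_ble_eq_true h9, h10',
    Nat.le_of_ble_eq_true h11, ?_, ?_, wcOK_sound hw (by omega) (by omega)⟩
  · intro n hn hR
    unfold Dat.letter
    rw [perB_sound p0 hn hR, perB_sound p1 hn hR, perB_sound p2 hn hR]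
  · intro n hn hT
    unfold Dat.letter
    rw [devB_sound d0 hn hT, devB_sound d1 hn hT, devB_sound d2 hn hT]

/-- the candidate word -/
noncomputable def Dat.word (A : Dat) (n : ℕ) : ℕ :=
  if n < A.T then A.letter n
  else if (n + 1 - A.T) % A.k = 0 then
    (if (n + 1 - A.T) / A.k - 1 < n then A.word ((n + 1 - A.T) / A.k - 1) + A.d else 0)
  else A.letter (A.T + (n - A.T) % A.K)
termination_by n
decreasing_by assumption

theorem Dat.OK.letter_red {A : Dat} (h : A.OK) : ∀ n, A.T ≤ n → n < A.R →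
    A.letter (A.T + (n - A.T) % A.K) = A.letter n := by
  intro n
  induction n using Nat.strong_induction_on with
  | _ n ih =>
  intro hn hR
  by_cases hK : n < A.T + A.K
  · rw [Nat.mod_eq_of_lt (by omega)]
    congr 1; omega
  · have h1 := ih (n - A.K) (by have := h.hK; omega) (by omega) (by omega)
    have h2 := h.hper (n - A.K) (by omega) (by omega)
    have e1 : n - A.K + A.K = n := by omega
    rw [e1] at h2
    rw [h2, ← h1]
    have e2 : n - A.T = (n - A.K - A.T) + A.K := by omega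
    rw [e2, Nat.add_mod_right]

theorem Dat.OK.word_known {A : Dat} (h : A.OK) {n : ℕ} (hR : n < A.R)
    (hn : n < A.T ∨ (n + 1 - A.T) % A.k ≠ 0) : A.word n = A.letter n := by
  rw [Dat.word]
  by_cases h1 : n < A.T
  · rw [if_pos h1]
  · rw [if_neg h1, if_neg (by tauto), h.letter_red n (by omega) hR]

theorem Dat.OK.str {A : Dat} (h : A.OK) : Str A.word A.k A.K A.d A.T A.D := by
  have hk := h.hk
  have hT := h.hT
  have hDk := h.hDk
  have hD := h.hD
  have hkK : A.k ≤ A.K := Nat.le_of_dvd h.hK h.hkK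
  refine ⟨h.hk, h.hK, h.hkK, h.hT, h.hD, h.hDk, ?_, ?_⟩
  · intro i
    have e1 : A.T + A.k - 1 + A.k * i + 1 - A.T = A.k * (i + 1) := by rw [Nat.mul_succ]; omega
    rw [Dat.word, if_neg (by omega), e1, if_pos (Nat.mul_mod_right _ _),
      Nat.mul_div_cancel_left _ (by omega), Nat.add_sub_cancel, if_pos]
    have : i ≤ A.k * i := Nat.le_mul_of_pos_left _ (by omega)
    omega
  · rintro n hn (h1 | ⟨h1, h2⟩)
    · have h3 : A.T ≤ n + A.K := by omega
      have h4 : (n + A.K + 1 - A.T) % A.k ≠ 0 := by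
        intro hcon
        obtain ⟨c, hc⟩ := h.hkK
        obtain ⟨z, hz⟩ := Nat.dvd_of_mod_eq_zero hcon
        -- K - (T - 1 - n) = k z
        have h5 : A.k * c = A.k * z + (A.T - 1 - n) := by omega
        have h6 : A.T - 1 - n < A.k := by omega
        have h7 : 0 < A.T - 1 - n := by omega
        have h8 : z < c := by
          by_contra hh
          push Not at hh
          have := Nat.mul_le_mul_left A.k hh
          omega
        have h9 : A.k * (z + 1) ≤ A.k * c := Nat.mul_le_mul_left _ h8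
        rw [Nat.mul_succ] at h9
        omega
      rw [Dat.word, if_neg (by omega), if_neg h4, h.letter_red _ h3 (by have := h.hR; omega),
        h.hdev n hn h1, Dat.word, if_pos (by omega)]
    · have h4 : (n + A.K + 1 - A.T) % A.k ≠ 0 := by
        obtain ⟨c, hc⟩ := h.hkK
        have : n + A.K + 1 - A.T = (n + 1 - A.T) + A.k * c := by omega
        rw [this, Nat.add_mul_mod_self_left]
        exact h2
      rw [Dat.word, if_neg (by omega), if_neg h4, Dat.word, if_neg (by omega), if_neg h2]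
      congr 2
      have : n + A.K - A.T = n - A.T + A.K := by omega
      rw [this, Nat.add_mod_right]

/-- symbols -/
noncomputable def Dat.s (A : Dat) (n : ℕ) : Option ℕ := sy A.word A.k A.T n

theorem Dat.OK.s_KN {A : Dat} (h : A.OK) {n : ℕ} (hn : A.KN.testBit n = true) :
    A.s n = some (A.letter n) ∧ n < A.R := by
  rw [A.KN_tb] at hn
  have hw := h.hwc n
  have hR : n < A.R := by
    by_contra hcon
    rcases hh : A.WC.testBit n with _ | _
    · rw [hh] at hn; simp [hcon] at hn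
    · exact hcon (hw.mp hh).2.1
  have hW : ¬ A.WC.testBit n = true := by
    intro hh
    rw [hh] at hn; simp [hR] at hn
  have hk : n < A.T ∨ (n + 1 - A.T) % A.k ≠ 0 := by
    by_contra hcon
    push Not at hcon
    exact hW (hw.mpr ⟨hcon.1, hR, hcon.2⟩)
  refine ⟨?_, hR⟩
  unfold Dat.s sy
  rw [if_pos hk, h.word_known hR hk]

theorem Dat.OK.s_WC {A : Dat} (h : A.OK) {n : ℕ} (hn : A.WC.testBit n = true) : A.s n = none := by
  have hw := (h.hwc n).mp hn
  unfold Dat.s sy
  rw [if_neg]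
  push Not
  exact ⟨hw.1, hw.2.2⟩

theorem Dat.OK.s_some {A : Dat} (h : A.OK) {n x : ℕ} (hn : n < A.R) (hs : A.s n = some x) :
    A.KN.testBit n = true ∧ A.letter n = x := by
  unfold Dat.s sy at hs
  split at hs
  · rename_i hk
    have hW : A.WC.testBit n = false := by
      by_contra hcon
      have : A.WC.testBit n = true := by simpa using hcon
      have := (h.hwc n).mp this
      omega
    refine ⟨?_, ?_⟩
    · rw [A.KN_tb, hW]; simp [hn]
    · rw [← h.word_known hn hk]; simpa using hs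
  · simp at hs

theorem Dat.OK.s_none {A : Dat} (h : A.OK) {n : ℕ} (hn : n < A.R) (hs : A.s n = none) :
    A.WC.testBit n = true := by
  unfold Dat.s sy at hs
  split at hs
  · simp at hs
  · rename_i hk
    push Not at hk
    exact (h.hwc n).mpr ⟨hk.1, hn, hk.2⟩

theorem Dat.LT_tb (A : Dat) (n : ℕ) : A.LT.testBit n = (A.KN.testBit n && decide (A.letter n < A.d)) := by
  unfold Dat.LT
  rw [A.un_tb]
  congr 1
  rcases h : Nat.ble (Nat.succ (A.letter n)) A.d with _ | _
  · symm; rw [decide_eq_false_iff_not]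
    intro hc
    have : Nat.ble (Nat.succ (A.letter n)) A.d = true := Nat.ble_eq_true_of_le hc
    rw [this] at h; simp at h
  · symm; rw [decide_eq_true_iff]
    exact Nat.le_of_ble_eq_true h

theorem Dat.OK.mism_tb {A : Dat} (h : A.OK) {δ n : ℕ} (hm : (A.mism δ).testBit n = true) :
    Mis A.d (A.s n) (A.s (n + δ)) := by
  unfold Dat.mism at hm
  rw [tb_lor, tb_lor, tb_land, tb_land, tb_land, tb_land, tb_shr, tb_shr, tb_shr, A.X_tb, A.LT_tb,
    A.LT_tb, show δ + n = n + δ by ring] at hm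
  rcases Bool.or_eq_true_iff.mp hm with h1 | h1
  · obtain ⟨h2, h3⟩ := Bool.and_eq_true_iff.mp h1
    obtain ⟨h4, h5⟩ := Bool.and_eq_true_iff.mp h3
    rw [(h.s_KN h4).1, (h.s_KN h5).1]
    have h6 := of_decide_eq_true h2
    exact h6
  · rcases Bool.or_eq_true_iff.mp h1 with h2 | h2
    · obtain ⟨h3, h4⟩ := Bool.and_eq_true_iff.mp h2
      obtain ⟨h5, h6⟩ := Bool.and_eq_true_iff.mp h4
      rw [h.s_WC h3, (h.s_KN h5).1]
      have h7 := of_decide_eq_true h6
      exact h7
    · obtain ⟨h3, h4⟩ := Bool.and_eq_true_iff.mp h2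
      obtain ⟨h5, h6⟩ := Bool.and_eq_true_iff.mp h4
      rw [h.s_WC h3, (h.s_KN h5).1]
      have h7 := of_decide_eq_true h6
      exact h7

theorem Dat.OK.chk_sound {A : Dat} (h : A.OK) {m : ℕ} (hm : A.chk m = true) :
    ∀ i, i < A.T + A.K → (A.K ∣ A.b * m → i < A.D) →
      ∃ j, j < A.g * m ∧ Mis A.d (A.s (i + j)) (A.s (i + j + A.b * m)) := by
  intro i hi hiD
  unfold Dat.chk at hm
  have hlim : i < sel (Nat.beq (Nat.mod (Nat.mul A.b m) A.K) 0) A.D (Nat.add A.T A.K) := by
    rcases hc : Nat.beq (Nat.mod (Nat.mul A.b m) A.K) 0 with _ | _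
    · exact hi
    · exact hiD (Nat.dvd_of_mod_eq_zero (beq_eq hc))
  have h1 := cover_sound hm hlim
  obtain ⟨j, hj, h2⟩ := spr_sound _ _ _ _ h1
  exact ⟨j, hj, h.mism_tb h2⟩

theorem chkR_succ (A : Dat) (lo cnt : ℕ) :
    A.chkR lo (cnt + 1) = Bool.rec (motive := fun _ => Bool) false (A.chkR lo cnt) (A.chk (Nat.add lo cnt)) := rfl

theorem chkR_sound (A : Dat) (lo : ℕ) : ∀ cnt, A.chkR lo cnt = true → ∀ m, lo ≤ m → m < lo + cnt → A.chk m = true := by
  intro cnt
  induction cnt with
  | zero => intro _ m h1 h2; omega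
  | succ cnt ih =>
    intro h m h1 h2
    rw [chkR_succ] at h
    rcases hc : A.chk (Nat.add lo cnt) with _ | _
    · rw [hc] at h; simp at h
    · rw [hc] at h
      by_cases hm : m = lo + cnt
      · subst hm; exact hc
      · exact ih h m h1 (by omega)

theorem Dat.OK.Em_compl {A : Dat} (h : A.OK) {c n : ℕ} (hn : n < A.R) (hm : ¬ Mis A.d (some c) (A.s n)) :
    (A.Em c).testBit n = true := by
  unfold Dat.Em
  rw [tb_lor, A.un_tb, tb_sel]
  rcases hs : A.s n with _ | y
  · rw [hs] at hm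
    have : A.d ≤ c := by simpa [Mis] using hm
    have h2 : Nat.ble A.d c = true := Nat.ble_eq_true_of_le this
    rw [h2]
    simp only [cond_true]
    rw [h.s_none hn hs]; simp
  · rw [hs] at hm
    have h3 : c = y := by simpa [Mis] using hm
    obtain ⟨h4, h5⟩ := h.s_some hn hs
    rw [h4, h5, h3]
    have : Nat.beq y y = true := Nat.beq_refl y
    rw [this]; simp

theorem cand_cons (A : Dat) (Q x : ℕ) (J : List ℕ) :
    A.cand Q (x :: J) = Nat.land (A.cand Q J) (Nat.shiftRight (A.Em (Nat.mod x 8)) (Nat.div x 8)) := rfl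

theorem cand_sound (A : Dat) (Q q0 : ℕ) (hQ : Q.testBit q0 = true) : ∀ J : List ℕ,
    (∀ x ∈ J, (A.Em (x % 8)).testBit (x / 8 + q0) = true) → (A.cand Q J).testBit q0 = true := by
  intro J
  induction J with
  | nil => intro _; exact hQ
  | cons x J ih =>
    intro hx
    rw [cand_cons, tb_land, tb_shr]
    rw [ih (fun y hy => hx y (List.mem_cons_of_mem _ hy))]
    have := hx x List.mem_cons_self
    change (true && (A.Em (x % 8)).testBit (x / 8 + q0)) = true
    rw [this]; rfl

theorem here_cons (A : Dat) (p lim x : ℕ) (J : List ℕ) :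
    A.here p lim (x :: J) = Bool.rec (motive := fun _ => Bool) false (Bool.rec (motive := fun _ => Bool) false (A.here p lim J)
      (Nat.ble (Nat.succ (Nat.add p (Nat.div x 8))) lim))
      (Nat.beq (Nat.mod (Nat.shiftRight (A.un (fun y => Nat.beq y (Nat.mod x 8))) (Nat.add p (Nat.div x 8))) 2) 1) := rfl

theorem here_sound {A : Dat} (h : A.OK) (p lim : ℕ) : ∀ J : List ℕ, A.here p lim J = true →
    ∀ x ∈ J, A.s (p + x / 8) = some (x % 8) ∧ p + x / 8 < lim := by
  intro J
  induction J with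
  | nil => intro _ x hx; simp at hx
  | cons y J ih =>
    intro hh
    rw [here_cons, mod2_tb] at hh
    rcases h1 : (A.un (fun z => Nat.beq z (Nat.mod y 8))).testBit (Nat.add p (Nat.div y 8)) with _ | _
    · rw [h1] at hh; simp at hh
    · rw [h1] at hh
      rcases h2 : Nat.ble (Nat.succ (Nat.add p (Nat.div y 8))) lim with _ | _
      · rw [h2] at hh; simp at hh
      · rw [h2] at hh
        intro x hx
        rcases List.mem_cons.mp hx with hx | hx
        · subst hx
          rw [A.un_tb] at h1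
          obtain ⟨h3, h4⟩ := Bool.and_eq_true_iff.mp h1
          refine ⟨?_, Nat.le_of_ble_eq_true h2⟩
          have h5 := (h.s_KN h3).1
          have h6 := beq_eq h4
          change A.s (p + x / 8) = some (A.letter (p + x / 8)) at h5
          change A.letter (p + x / 8) = x % 8 at h6
          rw [h5, h6]
        · exact ih hh x hx

/-- the anchor p with J excludes all positions except those allowed by uniq -/
theorem Dat.OK.cand_pos {A : Dat} (h : A.OK) {p lim : ℕ} {J : List ℕ} (hh : A.here p lim J = true)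
    {q0 : ℕ} (hq0 : q0 < A.T + A.K) (hR : ∀ x ∈ J, q0 + x / 8 < A.R)
    (hm : ∀ x ∈ J, ¬ Mis A.d (A.s (p + x / 8)) (A.s (q0 + x / 8))) :
    (A.cand (ones (Nat.add A.T A.K)) J).testBit q0 = true := by
  apply cand_sound
  · rw [tb_ones]
    exact decide_eq_true hq0
  · intro x hx
    have h1 := here_sound h p lim J hh x hx
    have h2 := hm x hx
    rw [h1.1] at h2
    rw [show x / 8 + q0 = q0 + x / 8 by ring]
    exact h.Em_compl (hR x hx) h2

theorem Dat.OK.anc_sound {A : Dat} (h : A.OK) {M p z lim Lb : ℕ} {J : List ℕ}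
    (ha : A.anc M p z lim J = true) (hLb : ∀ x ∈ J, x / 8 < Lb) (hLR : A.T + A.K + Lb ≤ A.R)
    {δ : ℕ} (hδ : A.b * M ≤ δ)
    (hm : ∀ x ∈ J, ¬ Mis A.d (A.s (p + x / 8)) (A.s (p + x / 8 + δ))) : A.K ∣ δ := by
  unfold Dat.anc at ha
  rcases h1 : A.here p lim J with _ | _
  · rw [h1] at ha; simp at ha
  rw [h1] at ha
  simp only at ha
  obtain ⟨q0, hq0, hqe, hqT, ⟨t, ht⟩, hs⟩ := h.str.reduce (p + δ)
  have hc : (A.cand (ones (Nat.add A.T A.K)) J).testBit q0 = true := by
    apply h.cand_pos h1 hq0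
    · intro x hx; have := hLb x hx; omega
    · intro x hx
      have := hm x hx
      rw [show p + x / 8 + δ = p + δ + x / 8 by ring] at this
      have e := hs (x / 8)
      change ¬ Mis A.d (A.s (p + x / 8)) (A.s (p + δ + x / 8)) at this
      unfold Dat.s at *
      rw [e] at this
      exact this
  set Q := A.cand (ones (Nat.add A.T A.K)) J with hQ
  have hlow : Nat.min (Nat.add p (Nat.mul A.b M)) A.T ≤ q0 := by
    change min (p + A.b * M) A.T ≤ q0
    by_cases hpT : p + δ < A.T
    · rw [hqe hpT]; omega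
    · have := hqT (by omega); omega
  set low := Nat.min (Nat.add p (Nat.mul A.b M)) A.T with hlowdef
  unfold Dat.uniq at ha
  rcases h2 : Nat.ble (Nat.succ (Nat.add p (Nat.mul A.K z))) low with _ | _
  swap
  · rw [h2] at ha; simp at ha
  rw [h2] at ha
  simp only at ha
  have hbit : (Nat.shiftRight Q low).testBit (q0 - low) = true := by
    rw [tb_shr, show low + (q0 - low) = q0 by omega]; exact hc
  rcases h3 : Nat.beq (Nat.shiftRight Q low) 0 with _ | _
  · rw [h3] at ha
    simp only at ha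
    have h4 := beq_eq ha
    rw [h4, tb_pow] at hbit
    have h5 := of_decide_eq_true hbit
    have h6 : low ≤ p + A.K * z := by
      by_contra hcon
      push Not at hcon
      have : Nat.ble (Nat.succ (Nat.add p (Nat.mul A.K z))) low = true := Nat.ble_eq_true_of_le hcon
      rw [this] at h2; simp at h2
    change p + A.K * z - low = q0 - low at h5
    have h7 : q0 = p + A.K * z := by omega
    have h8 : p + δ = p + A.K * z + A.K * t := by rw [ht, h7]
    exact ⟨z + t, by rw [Nat.mul_add]; omega⟩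
  · have h4 := beq_eq h3
    rw [h4] at hbit
    simp at hbit

theorem ancs_cons (A : Dat) (M L hi lo : ℕ) (a : ℕ × ℕ × List ℕ) (l : List (ℕ × ℕ × List ℕ)) :
    A.ancs M L hi (a :: l) lo = Bool.rec (motive := fun _ => Bool) false (Bool.rec (motive := fun _ => Bool) false
      (A.ancs M L hi l (Nat.succ a.1)) (A.anc M a.1 a.2.1 (Nat.add lo L) a.2.2)) (Nat.ble lo a.1) := rfl

theorem Dat.OK.ancs_sound {A : Dat} (h : A.OK) {M L hi : ℕ} (hLR : A.T + A.K + L ≤ A.R) :
    ∀ (l : List (ℕ × ℕ × List ℕ)) (lo : ℕ), A.ancs M L hi l lo = true → ∀ i, lo ≤ i → i < hi →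
      ∀ δ, A.b * M ≤ δ → (∀ j, j < L → ¬ Mis A.d (A.s (i + j)) (A.s (i + j + δ))) → A.K ∣ δ := by
  intro l
  induction l with
  | nil =>
    intro lo hl i h1 h2
    have : hi ≤ lo := Nat.le_of_ble_eq_true hl
    omega
  | cons a l ih =>
    intro lo hl i h1 h2 δ hδ hm
    rw [ancs_cons] at hl
    rcases h3 : Nat.ble lo a.1 with _ | _
    · rw [h3] at hl; simp at hl
    rw [h3] at hl
    simp only at hl
    rcases h4 : A.anc M a.1 a.2.1 (Nat.add lo L) a.2.2 with _ | _
    · rw [h4] at hl; simp at hl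
    rw [h4] at hl
    simp only at hl
    have h5 : lo ≤ a.1 := Nat.le_of_ble_eq_true h3
    by_cases hi2 : i ≤ a.1
    · have hh : A.here a.1 (Nat.add lo L) a.2.2 = true := by
        unfold Dat.anc at h4
        rcases h6 : A.here a.1 (Nat.add lo L) a.2.2 with _ | _
        · rw [h6] at h4; simp at h4
        · rfl
      apply h.anc_sound h4 (Lb := L) _ hLR hδ
      · intro x hx
        have h7 := (here_sound h _ _ _ hh x hx).2
        change a.1 + x / 8 < lo + L at h7
        have h8 := hm (a.1 + x / 8 - i) (by omega)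
        rw [show i + (a.1 + x / 8 - i) = a.1 + x / 8 by omega] at h8
        exact h8
      · intro x hx
        have h7 := (here_sound h _ _ _ hh x hx).2
        change a.1 + x / 8 < lo + L at h7
        omega
    · exact ih _ hl i (by change a.1 + 1 ≤ i; omega) h2 δ hδ hm

theorem Dat.SE_tb (A : Dat) (δ n : ℕ) : (A.SE δ).testBit n =
    (A.KN.testBit n && A.KN.testBit (n + δ) && decide (A.letter n = A.letter (n + δ))) := by
  unfold Dat.SE
  rw [tb_xor, tb_land, tb_land, tb_land, tb_shr, A.X_tb, show δ + n = n + δ by ring]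
  by_cases hl : A.letter n = A.letter (n + δ)
  · cases A.KN.testBit n <;> cases A.KN.testBit (n + δ) <;> simp [hl]
  · cases A.KN.testBit n <;> cases A.KN.testBit (n + δ) <;> simp [hl]

theorem blx_cons (A : Dat) (x m : ℕ) (W : List ℕ) :
    A.blx x (m :: W) = Nat.lor (A.blx x W) (A.blm x m) := rfl

theorem blx_sound (A : Dat) (x n : ℕ) : ∀ W : List ℕ, (A.blx x W).testBit n = true →
    ∃ m ∈ W, (A.blm x m).testBit n = true := by
  intro W
  induction W with
  | nil =>
    intro h
    have : (0 : ℕ).testBit n = true := h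
    simp at this
  | cons m W ih =>
    intro h
    rw [blx_cons, tb_lor] at h
    rcases Bool.or_eq_true_iff.mp h with h1 | h1
    · obtain ⟨m', hm', h2⟩ := ih h1
      exact ⟨m', List.mem_cons_of_mem _ hm', h2⟩
    · exact ⟨m, List.mem_cons_self, h1⟩

theorem bndW_cons (mx m : ℕ) (W : List ℕ) : bndW mx (m :: W) =
    Bool.rec (motive := fun _ => Bool) false (Bool.rec (motive := fun _ => Bool) false (bndW mx W) (Nat.ble m mx)) (Nat.ble 1 m) := rfl

theorem bndW_sound (mx : ℕ) : ∀ W : List ℕ, bndW mx W = true → ∀ m ∈ W, 1 ≤ m ∧ m ≤ mx := by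
  intro W
  induction W with
  | nil => intro _ m hm; simp at hm
  | cons y W ih =>
    intro h
    rw [bndW_cons] at h
    rcases h1 : Nat.ble 1 y with _ | _
    · rw [h1] at h; simp at h
    rw [h1] at h
    simp only at h
    rcases h2 : Nat.ble y mx with _ | _
    · rw [h2] at h; simp at h
    rw [h2] at h
    simp only at h
    intro m hm
    rcases List.mem_cons.mp hm with hm | hm
    · subst hm; exact ⟨Nat.le_of_ble_eq_true h1, Nat.le_of_ble_eq_true h2⟩
    · exact ih h m hm

theorem Dat.OK.blm_sound {A : Dat} (h : A.OK) {x m n : ℕ} (hm : 1 ≤ m) (hb : (A.blm x m).testBit n = true) :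
    ∃ i, i + (A.b + A.g) * m = n + 1 ∧
    (∀ j, j + 1 < A.g * m → ∃ y, A.s (i + j) = some y ∧ A.s (i + j + A.b * m) = some y) ∧
    A.s (i + A.g * m - 1) = some x := by
  unfold Dat.blm at hb
  rw [tb_shl] at hb
  obtain ⟨h1, h2⟩ := Bool.and_eq_true_iff.mp hb
  have h1 := of_decide_eq_true h1
  change n ≥ (A.b + A.g) * m - 1 at h1
  change (Nat.land _ _).testBit (n - ((A.b + A.g) * m - 1)) = true at h2
  rw [tb_land] at h2
  obtain ⟨h3, h4⟩ := Bool.and_eq_true_iff.mp h2
  have hab : 1 ≤ (A.b + A.g) * m := Nat.mul_pos (by have := h.hb; omega) hm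
  have hgm : 1 ≤ A.g * m := Nat.mul_pos h.hg hm
  refine ⟨n - ((A.b + A.g) * m - 1), by omega, ?_, ?_⟩
  · intro j hj
    have h5 := sprA_sound _ _ _ _ _ h3 j (by change j < A.g * m - 1; omega)
    rw [A.SE_tb] at h5
    obtain ⟨h6, h7⟩ := Bool.and_eq_true_iff.mp h5
    obtain ⟨h8, h9⟩ := Bool.and_eq_true_iff.mp h6
    have h7 := of_decide_eq_true h7
    refine ⟨_, (h.s_KN h8).1, ?_⟩
    change A.KN.testBit (n - ((A.b + A.g) * m - 1) + j + A.b * m) = true at h9
    change A.letter _ = A.letter (n - ((A.b + A.g) * m - 1) + j + A.b * m) at h7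
    rw [(h.s_KN h9).1, h7]
  · rw [tb_shr, A.un_tb] at h4
    obtain ⟨h5, h6⟩ := Bool.and_eq_true_iff.mp h4
    change A.KN.testBit (A.g * m - 1 + (n - ((A.b + A.g) * m - 1))) = true at h5
    have h6 := beq_eq h6
    change A.letter (A.g * m - 1 + (n - ((A.b + A.g) * m - 1))) = x at h6
    have e : n - ((A.b + A.g) * m - 1) + A.g * m - 1 = A.g * m - 1 + (n - ((A.b + A.g) * m - 1)) := by omega
    rw [e, (h.s_KN h5).1, h6]

theorem Dat.OK.needx_tb {A : Dat} (h : A.OK) {x n : ℕ} (hn : n < A.R) (hx : x < (A.s n).getD A.d) :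
    (A.needx x).testBit n = true := by
  unfold Dat.needx
  rw [tb_lor, A.un_tb, tb_sel]
  rcases hs : A.s n with _ | y
  · rw [hs] at hx
    have hx : x < A.d := hx
    have : Nat.ble (Nat.succ x) A.d = true := Nat.ble_eq_true_of_le hx
    rw [this]
    simp only [cond_true]
    rw [h.s_none hn hs]; simp
  · rw [hs] at hx
    have hx : x < y := hx
    obtain ⟨h4, h5⟩ := h.s_some hn hs
    have : Nat.ble (Nat.succ x) (A.letter n) = true := Nat.ble_eq_true_of_le (by rw [h5]; exact hx)
    rw [this, h4]; simp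

theorem okx_sound {A : Dat} {N3 x n : ℕ} {W : List ℕ} (h : A.okx N3 W x = true) (hn : n < N3)
    (hb : (A.needx x).testBit n = true) : (A.blx x W).testBit n = true := by
  have h1 := beq_eq h
  have h2 : (Nat.land (A.blx x W) (Nat.land (A.needx x) (ones N3))).testBit n =
      (Nat.land (A.needx x) (ones N3)).testBit n := by rw [h1]
  rw [tb_land, tb_land, tb_ones, hb] at h2
  simpa [hn] using h2

theorem Dat.OK.le_sound {A : Dat} (h : A.OK) {N2 mx : ℕ} {W : List ℕ} (hl : A.lea (N2 + A.K) W = true)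
    (hb : bndW mx W = true) (hTN : A.T ≤ N2) (hmx : A.T + (A.b + A.g) * mx ≤ N2 + 1) (hR : N2 + A.K ≤ A.R) :
    Le A.word A.b A.g A.k A.K A.d A.T N2 := by
  refine ⟨h.hb, h.hg, h.hKbk, hTN, ?_⟩
  intro n hn x hx
  have hx' : x < (A.s n).getD A.d := hx
  have hneed := h.needx_tb (by omega) hx'
  have hx7 : x < 7 := by
    rcases hs : A.s n with _ | y
    · rw [hs] at hx'
      have : x < A.d := hx'
      have := h.hd
      omega
    · rw [hs] at hx'
      have h1 : x < y := hx'
      have h2 := (h.s_some (by omega) hs).2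
      have := A.letter_lt n
      omega
  have hok : A.okx (N2 + A.K) W x = true := by
    unfold Dat.lea at hl
    simp only [Bool.and_eq_true] at hl
    obtain ⟨⟨⟨⟨⟨⟨h0, h1⟩, h2⟩, h3⟩, h4⟩, h5⟩, h6⟩ := hl
    interval_cases x <;> assumption
  obtain ⟨m, hmW, hbm⟩ := blx_sound A x n W (okx_sound hok hn hneed)
  obtain ⟨hm1, hm2⟩ := bndW_sound mx W hb m hmW
  obtain ⟨i, hi, hj, hl'⟩ := h.blm_sound hm1 hbm
  refine ⟨m, i, hm1, hi, ?_, hj, hl'⟩
  intro hN
  have : (A.b + A.g) * m ≤ (A.b + A.g) * mx := Nat.mul_le_mul_left _ hm2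
  omega

theorem vR_succ (A : Dat) (e M : ℕ) : A.vR e (M + 1) = Bool.rec (motive := fun _ => Bool) false (A.vR e M)
    (Bool.rec (motive := fun _ => Bool) (A.vm e M) true (Nat.beq M 0)) := rfl

theorem vR_sound (A : Dat) (e : ℕ) : ∀ M, A.vR e M = true → ∀ m, 0 < m → m < M → A.vm e m = true := by
  intro M
  induction M with
  | zero => intro _ m _ h2; omega
  | succ M ih =>
    intro h m h1 h2
    rw [vR_succ] at h
    rcases hc : (Bool.rec (motive := fun _ => Bool) (A.vm e M) true (Nat.beq M 0) : Bool) with _ | _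
    · rw [hc] at h; simp at h
    · rw [hc] at h
      by_cases hm : m = M
      · subst hm
        rcases h3 : Nat.beq m 0 with _ | _
        · rw [h3] at hc; exact hc
        · have := beq_eq h3; omega
      · exact ih h m h1 (by omega)

/-- the condition on the virtual letter -/
def Dat.VC (A : Dat) : Prop :=
  ∀ m, 0 < m → A.word (A.T - 1) = A.word (A.b * m - 1) + A.d → ∃ j, j + 1 < A.g * m ∧ A.word j ≠ A.word (j + A.b * m)

theorem Dat.OK.v1_sound {A : Dat} (h : A.OK) (hv : A.v1 = true) : A.VC := by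
  intro m hm he
  exfalso
  unfold Dat.v1 at hv
  rw [mod2_tb, A.LT_tb] at hv
  obtain ⟨h1, h2⟩ := Bool.and_eq_true_iff.mp hv
  have h2 := of_decide_eq_true h2
  change A.letter (A.T - 1) < A.d at h2
  have hT := h.hT
  have h3 := h.word_known (n := A.T - 1) (by have := h.hR; omega) (Or.inl (by omega))
  omega

theorem Dat.OK.v2_sound {A : Dat} (h : A.OK) {e M p : ℕ} {J : List ℕ} (hv : A.v2 e M p J = true) : A.VC := by
  intro m hm he
  unfold Dat.v2 at hv
  simp only [Bool.and_eq_true] at hv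
  obtain ⟨⟨⟨⟨⟨⟨h1, h2⟩, h3⟩, h4⟩, h5⟩, h6⟩, h7⟩ := hv
  rw [mod2_tb, A.un_tb] at h1
  have h1 := beq_eq (Bool.and_eq_true_iff.mp h1).2
  change A.letter (A.T - 1) = e + A.d at h1
  have h2 : p + 1 ≤ A.T := Nat.le_of_ble_eq_true h2
  have h3 : A.b * M ≤ A.R := Nat.le_of_ble_eq_true h3
  have h4 : A.T + (A.K + A.g * M) ≤ A.R := Nat.le_of_ble_eq_true h4
  have h6 := beq_eq h6
  have hT := h.hT
  have hw := h.word_known (n := A.T - 1) (by have := h.hR; omega) (Or.inl (by omega))
  have he' : A.word (A.b * m - 1) = e := by omega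
  have hbm : 1 ≤ A.b * m := Nat.mul_pos h.hb hm
  have hgm : 1 ≤ A.g * m := Nat.mul_pos h.hg hm
  by_cases hmM : m < M
  · have hvm := vR_sound A e M h7 m hm hmM
    unfold Dat.vm at hvm
    have hEm : (A.Em e).testBit (A.b * m - 1) = true := by
      have hbM : A.b * m ≤ A.b * M := Nat.mul_le_mul_left _ (by omega)
      apply h.Em_compl (by omega)
      rcases hs : A.s (A.b * m - 1) with _ | y
      · have := h.str.sy_none hs
        simp only [Mis]; omega
      · have := h.str.sy_known hs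
        simp only [Mis]; omega
    have e1 : Nat.beq (Nat.mod (Nat.shiftRight (A.Em e) (Nat.sub (Nat.mul A.b m) 1)) 2) 0 = false := by
      rw [mod2_tb0]
      change (!(A.Em e).testBit (A.b * m - 1)) = false
      rw [hEm]; rfl
    rw [e1] at hvm
    simp only at hvm
    rcases h8 : Nat.beq (Nat.mod (A.mism (Nat.mul A.b m)) (Nat.pow 2 (Nat.sub (Nat.mul A.g m) 1))) 0 with _ | _
    · have hne : Nat.mod (A.mism (Nat.mul A.b m)) (Nat.pow 2 (Nat.sub (Nat.mul A.g m) 1)) ≠ 0 := by
        intro hcon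
        rw [hcon] at h8
        simp at h8
      obtain ⟨j, hj⟩ := Nat.exists_testBit_of_ne_zero hne
      rw [tb_mod] at hj
      obtain ⟨h9, h10⟩ := Bool.and_eq_true_iff.mp hj
      have h9 := of_decide_eq_true h9
      change j < A.g * m - 1 at h9
      refine ⟨j, by omega, ?_⟩
      exact h.str.mis_ne (h.mism_tb h10)
    · rw [h8] at hvm; simp at hvm
  · by_contra hcon
    push Not at hcon
    obtain ⟨q0, hq0, hqe, hqT, ⟨t, ht⟩, hs⟩ := h.str.reduce (p + A.b * m)
    have hgM : A.g * M ≤ A.g * m := Nat.mul_le_mul_left _ (by omega)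
    have hc : (A.cand (ones (Nat.add A.T A.K)) J).testBit q0 = true := by
      apply h.cand_pos h5 hq0
      · intro x hx
        have := (here_sound h _ _ _ h5 x hx).2
        change p + x / 8 < A.g * M - 1 at this
        omega
      · intro x hx
        have h9 := (here_sound h _ _ _ h5 x hx).2
        change p + x / 8 < A.g * M - 1 at h9
        have h10 := hcon (p + x / 8) (by omega)
        intro hmis
        apply h.str.mis_ne (n := p + x / 8) (n' := p + x / 8 + A.b * m) _ h10
        rw [show p + x / 8 + A.b * m = p + A.b * m + x / 8 by ring, hs (x / 8)]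
        exact hmis
    have hlow : p + 1 ≤ q0 := by
      by_cases hpT : p + A.b * m < A.T
      · rw [hqe hpT]; omega
      · have := hqT (by omega); omega
    have hbit : (Nat.shiftRight (A.cand (ones (Nat.add A.T A.K)) J) (Nat.succ p)).testBit (q0 - (p + 1)) = true := by
      rw [tb_shr, show Nat.succ p + (q0 - (p + 1)) = q0 by omega]; exact hc
    rw [h6] at hbit
    simp at hbit

/-- the main soundness theorem -/
theorem Dat.OK.av_sound {A : Dat} (h : A.OK) {M L J0 N2 mx : ℕ} (h2 : A.numOK2 M L J0 N2 mx = true)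
    {l : List (ℕ × ℕ × List ℕ)} (hdir : ∀ m, 0 < m → m < M → A.chk m = true)
    (hanc : A.ancs M L (A.T + A.K) l 0 = true) (hdev : A.devchk L J0 = true) (hV : A.VC) :
    Av A.word A.b A.g A.k A.K A.d A.T A.D M L := by
  unfold Dat.numOK2 at h2
  simp only [Bool.and_eq_true] at h2
  obtain ⟨⟨⟨⟨⟨⟨⟨⟨n1, n2⟩, n3⟩, n4⟩, n5⟩, n6⟩, n7⟩, n8⟩, n9⟩ := h2
  have n1 := beq_eq n1
  have n2 : L ≤ A.g * M := Nat.le_of_ble_eq_true n2
  have n3 : 1 ≤ M := Nat.le_of_ble_eq_true n3
  have n4 : A.T ≤ A.K * J0 := Nat.le_of_ble_eq_true n4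
  have n5 : A.T + (A.K + L) ≤ A.R := Nat.le_of_ble_eq_true n5
  have hdesc : ∀ m, A.K ∣ A.b * m → A.k ∣ m := by
    intro m hm
    have hK := h.hK
    have hgpos : 0 < Nat.gcd A.K A.b := Nat.gcd_pos_of_pos_left _ hK
    have h1 : A.K / Nat.gcd A.K A.b ∣ m := by
      have h3 : Nat.Coprime (A.K / Nat.gcd A.K A.b) (A.b / Nat.gcd A.K A.b) :=
        Nat.coprime_div_gcd_div_gcd hgpos
      apply h3.dvd_of_dvd_mul_left
      obtain ⟨K', hK'⟩ := Nat.gcd_dvd_left A.K A.b
      obtain ⟨b', hb'⟩ := Nat.gcd_dvd_right A.K A.b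
      have e1 : A.K / Nat.gcd A.K A.b = K' := by
        conv_lhs => rw [hK']
        rw [← hK']
        exact Nat.div_eq_of_eq_mul_right hgpos hK'
      have e2 : A.b / Nat.gcd A.K A.b = b' := Nat.div_eq_of_eq_mul_right hgpos hb'
      rw [e1, e2]
      obtain ⟨c, hc⟩ := hm
      refine ⟨c, ?_⟩
      apply Nat.eq_of_mul_eq_mul_left hgpos
      calc Nat.gcd A.K A.b * (b' * m) = (Nat.gcd A.K A.b * b') * m := by ring
        _ = A.b * m := by rw [← hb']
        _ = A.K * c := hc
        _ = Nat.gcd A.K A.b * K' * c := by rw [← hK']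
        _ = Nat.gcd A.K A.b * (K' * c) := by ring
    exact dvd_trans (Nat.dvd_of_mod_eq_zero n1) h1
  refine ⟨h.hb, h.hg, hdesc, n2, ?_, ?_, ?_, hV⟩
  · intro m hm hmM i hi hiD
    exact h.chk_sound (hdir m hm hmM) i hi hiD
  · intro i hi δ _ hδ hm
    exact h.ancs_sound (by omega) l 0 hanc i (Nat.zero_le _) hi δ hδ hm
  · intro m hmM hm hK i hi
    have hTbm : A.T ≤ A.b * m := by
      rcases Bool.or_eq_true_iff.mp n9 with h9 | h9
      · have h9 : A.T ≤ A.b * M := Nat.le_of_ble_eq_true h9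
        exact le_trans h9 (Nat.mul_le_mul_left _ hmM)
      · have h9 : A.T ≤ A.b * A.k := Nat.le_of_ble_eq_true h9
        exact le_trans h9 (Nat.mul_le_mul_left _ (Nat.le_of_dvd hm (hdesc m hK)))
    have h1 := cover_sound hdev (i := i) hi
    obtain ⟨j, hj, h2⟩ := spr_sound _ _ _ _ h1
    have h3 := h.mism_tb h2
    change Mis A.d (A.s (i + j)) (A.s (i + j + A.K * J0)) at h3
    refine ⟨j, lt_of_lt_of_le hj (le_trans n2 (Nat.mul_le_mul_left _ hmM)), ?_⟩
    apply h.str.mis_ne
    have e : sy A.word A.k A.T (i + j + A.b * m) = sy A.word A.k A.T (i + j + A.K * J0) := by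
      obtain ⟨c, hc⟩ := hK
      rw [hc]
      -- both are at least T and congruent modulo K
      have key : ∀ c, A.T ≤ A.K * c → A.T ≤ A.K * J0 →
          sy A.word A.k A.T (i + j + A.K * c) = sy A.word A.k A.T (i + j + A.K * J0) := by
        intro c hc1 hc2
        rcases Nat.le_total c J0 with hh | hh
        · obtain ⟨u, rfl⟩ := Nat.exists_eq_add_of_le hh
          rw [show i + j + A.K * (c + u) = (i + j + A.K * c) + A.K * u by ring]
          rw [h.str.sy_per_mul (n := i + j + A.K * c) (by omega)]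
        · obtain ⟨u, rfl⟩ := Nat.exists_eq_add_of_le hh
          rw [show i + j + A.K * (J0 + u) = (i + j + A.K * J0) + A.K * u by ring]
          rw [h.str.sy_per_mul (n := i + j + A.K * J0) (by omega)]
      exact key c (by rw [← hc]; exact hTbm) n4
    rw [e]
    exact h3

/-- all together -/
theorem Dat.final {A : Dat} {M L J0 N2 mx : ℕ} {l : List (ℕ × ℕ × List ℕ)} {W : List ℕ}
    (h1 : A.numOK = true) (h2 : A.numOK2 M L J0 N2 mx = true)
    (hdir : ∀ m, 0 < m → m < M → A.chk m = true)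
    (hanc : A.ancs M L (A.T + A.K) l 0 = true) (hdev : A.devchk L J0 = true)
    (hV : A.OK → A.VC) (hle : A.lea (N2 + A.K) W = true) (hW : bndW mx W = true) :
    Str A.word A.k A.K A.d A.T A.D ∧ Avoids A.b A.g A.word ∧
      ∀ u, Avoids A.b A.g u → A.word = u ∨ ∃ n, (∀ j, j < n → A.word j = u j) ∧ A.word n < u n := by
  have hOK := numOK_sound h1
  have hav := hOK.av_sound h2 hdir hanc hdev (hV hOK)
  refine ⟨hOK.str, ?_, ?_⟩
  · intro i m hm
    exact hOK.str.avoid hav m hm i
  · unfold Dat.numOK2 at h2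
    simp only [Bool.and_eq_true] at h2
    obtain ⟨⟨⟨⟨⟨⟨⟨⟨n1, n2⟩, n3⟩, n4⟩, n5⟩, n6⟩, n7⟩, n8⟩, n9⟩ := h2
    have n6 : N2 + A.K ≤ A.R := Nat.le_of_ble_eq_true n6
    have n7 : A.T + (A.b + A.g) * mx ≤ N2 + 1 := Nat.le_of_ble_eq_true n7
    have n8 : A.T ≤ N2 := Nat.le_of_ble_eq_true n8
    have hLe := hOK.le_sound hle hW n8 n7 n6
    intro u hu
    exact least_of_blocked hOK.hg (hOK.str.blocked hLe) hu

end Pool.Agent.H70.AB
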